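import Pool.Agent.Lib.MP_8f56c4_lc.Hash

/-!
A nearly orthogonal family of sign vectors: a Reed-Solomon hash followed by a pairwise
independent hash and a parity.
-/

namespace Pool.Agent.Lib.MP_79d702_lc.Thr

open Finset Pool.Agent.Shared.PolyTime Pool.Agent.Lib.MP_8f56c4_lc

/-- Indices of tests. -/
abbrev Ix := ℕ × ℕ × ℕ

/-- The bit of the codeword of `y` at the index `e`. -/
def tbit (p m : ℕ) (e : Ix) (y : ℕ) : Bool :=
  decide ((e.2.1 * hash p m e.1 y + e.2.2) % p % 2 = 0)

/-- The sign of a bit. -/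
def sgn (b : Bool) : ℤ := cond b 1 (-1)

/-- The list of all indices. -/
def idx (p : ℕ) : List Ix := (List.range p).product ((List.range p).product (List.range p))

theorem idx_nodup (p : ℕ) : (idx p).Nodup :=
  List.nodup_range.product (List.nodup_range.product List.nodup_range)

theorem idx_toFinset (p : ℕ) : (idx p).toFinset = range p ×ˢ (range p ×ˢ range p) := by
  ext ⟨u, a, c⟩
  simp [idx, List.pair_mem_product]

theorem idx_length (p : ℕ) : (idx p).length = p * (p * p) := by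
  rw [← List.toFinset_card_of_nodup (idx_nodup p), idx_toFinset]; simp

theorem sum_zmod {p : ℕ} [NeZero p] (g : ZMod p → ℝ) :
    ∑ a ∈ range p, g (a : ZMod p) = ∑ a, g a :=
  sum_nbij' (fun a => (a : ZMod p)) ZMod.val (fun _ _ => mem_univ _)
    (fun a _ => mem_range.2 (ZMod.val_lt a)) (fun _ ha => ZMod.val_cast_of_lt (mem_range.1 ha))
    (fun a _ => ZMod.natCast_zmod_val a) fun _ _ => rfl

theorem sum_pair {p z z' : ℕ} (hp : p.Prime) (hz : z < p) (hz' : z' < p) (hne : z ≠ z')
    (f : ℕ → ℝ) : ∑ a ∈ range p, ∑ c ∈ range p, f ((a * z + c) % p) * f ((a * z' + c) % p) =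
      (∑ x ∈ range p, f x) ^ 2 := by
  have := Fact.mk hp
  let F : ZMod p → ℝ := fun x => f x.val
  have h1 : ∀ n : ℕ, f (n % p) = F (n : ZMod p) := fun n => by simp only [F, ZMod.val_natCast]
  have h2 : ∑ x ∈ range p, f x = ∑ x, F x := by
    rw [← sum_zmod]
    exact sum_congr rfl fun x hx => by rw [← h1, Nat.mod_eq_of_lt (mem_range.1 hx)]
  have hd : (z' : ZMod p) - z ≠ 0 := by
    intro h
    have h3 := (ZMod.natCast_eq_natCast_iff' _ _ _).1 (sub_eq_zero.1 h)
    rw [Nat.mod_eq_of_lt hz, Nat.mod_eq_of_lt hz'] at h3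
    exact hne h3.symm
  simp only [h1, Nat.cast_add, Nat.cast_mul]
  rw [h2, sum_zmod fun a : ZMod p =>
    ∑ c ∈ range p, F (a * z + (c : ZMod p)) * F (a * z' + (c : ZMod p))]
  have h4 : ∀ a : ZMod p, ∑ c ∈ range p, F (a * z + (c : ZMod p)) * F (a * z' + (c : ZMod p)) =
      ∑ c, F c * F (a * (z' - z) + c) := by
    intro a
    rw [sum_zmod fun c : ZMod p => F (a * (z : ZMod p) + c) * F (a * (z' : ZMod p) + c),
      ← Equiv.sum_comp (Equiv.addLeft (a * (z : ZMod p))) fun c => F c * F (a * (z' - z) + c)]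
    refine sum_congr rfl fun c _ => ?_
    simp only [Equiv.coe_addLeft]
    congr 2
    ring
  simp only [h4]
  rw [sum_comm, sq, sum_mul]
  refine sum_congr rfl fun c _ => ?_
  rw [← mul_sum, ← Equiv.sum_comp ((Equiv.mulRight₀ _ hd).trans (Equiv.addRight c)) F]
  rfl

theorem sum_sgn (n : ℕ) : ∑ x ∈ range n, (sgn (decide (x % 2 = 0)) : ℝ) = (n % 2 : ℕ) := by
  induction n with
  | zero => simp
  | succ n ih =>
    rw [sum_range_succ, ih]
    rcases Nat.mod_two_eq_zero_or_one n with h | h <;> simp [sgn, h, Nat.add_mod]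

theorem sgn_mul_self (b : Bool) : (sgn b : ℝ) * sgn b = 1 := by cases b <;> simp [sgn]

theorem abs_sgn (b : Bool) : |(sgn b : ℝ)| = 1 := by cases b <;> simp [sgn]

theorem near_orth {p m y y' : ℕ} (hp : p.Prime) (hy : y < 2 ^ m) (hy' : y' < 2 ^ m)
    (hne : y ≠ y') : |∑ e ∈ (idx p).toFinset, (sgn (tbit p m e y) : ℝ) * sgn (tbit p m e y')| ≤
      (m + 1) * p ^ 2 := by
  rw [idx_toFinset, sum_product]
  refine (abs_sum_le_sum_abs _ _).trans ?_
  have hp1 : (1 : ℝ) ≤ p := by exact_mod_cast hp.pos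
  have h1 : ∀ u ∈ range p, |∑ e ∈ range p ×ˢ range p,
      (sgn (tbit p m (u, e) y) : ℝ) * sgn (tbit p m (u, e) y')| ≤
      (if hash p m u y = hash p m u y' then (p : ℝ) ^ 2 else 0) + 1 := by
    intro u _
    split_ifs with h
    · refine (abs_sum_le_sum_abs _ _).trans ?_
      simp only [abs_mul, abs_sgn]
      simp [sq]
    · rw [sum_product]
      have := sum_pair hp (hash_lt hp.pos m u y) (hash_lt hp.pos m u y') h
        fun x => (sgn (decide (x % 2 = 0)) : ℝ)
      simp only [tbit]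
      rw [this, sum_sgn]
      rcases Nat.mod_two_eq_zero_or_one p with h | h <;> simp [h]
  refine (sum_le_sum h1).trans ?_
  rw [sum_add_distrib, ← sum_filter, sum_const, sum_const, card_range, nsmul_eq_mul, nsmul_eq_mul]
  have h2 : ((#{u ∈ range p | hash p m u y = hash p m u y'} : ℕ) : ℝ) ≤ m := by
    exact_mod_cast card_coll hp hy hy' hne
  nlinarith [mul_le_mul_of_nonneg_right h2 (sq_nonneg (p : ℝ))]

variable {α : Type} [N487b59b3 α]

attribute [local fun_prop] PB.comp

@[fun_prop] theorem pt_tbit {p m y : α → ℕ} {e : α → Ix} (hp : PT p) (hm : PT m) (bm : PB m)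
    (he : PT e) (hy : PT y) : PT fun a => tbit (p a) (m a) (e a) (y a) := by
  unfold tbit; fun_prop

@[fun_prop] theorem pt_sgn {b : α → Bool} (hb : PT b) : PT fun a => sgn (b a) := by
  unfold sgn; fun_prop

@[fun_prop] theorem pt_idx {p : α → ℕ} (hp : PT p) (bp : PB p) : PT fun a => idx (p a) := by
  unfold idx; fun_prop

end Pool.Agent.Lib.MP_79d702_lc.Thr
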