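import Pool.Agent.Lib.MP_79d702_lc.Thr.Det
import Pool.Agent.Lib.MP_79d702_lc.Thr.Code

/-!
Removal of the vectors of large leverage and the correlation test, as polynomial-time procedures.
-/

namespace Pool.Agent.Lib.MP_79d702_lc.Thr

open Finset Matrix Pool.Agent.Shared.PolyTime N487b59b3

attribute [local fun_prop] PB.comp

/-- The vector with index `k` has a large leverage score. -/
def del (δ D N κ : ℕ) (c : Ix → List ℤ) (J : List Ix) (k : Ix) : Bool :=
  decide (((N + κ : ℕ) : ℤ) * rdet δ D ((J.filter fun e => decide (e ≠ k)).map c) <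
    (N : ℤ) * rdet δ D (J.map c))

/-- Remove one vector of large leverage, if there is one. -/
def prune1 (δ D N κ : ℕ) (c : Ix → List ℤ) (J : List Ix) : List Ix :=
  (J.find? (del δ D N κ c J)).elim J fun k => J.filter fun e => decide (e ≠ k)

/-- Remove vectors of large leverage until none is left. -/
def prune (δ D N κ : ℕ) (c : Ix → List ℤ) (J : List Ix) : List Ix :=
  (prune1 δ D N κ c)^[J.length] J

/-- The signed sum of the vectors. -/
def svec (D : ℕ) (c : Ix → List ℤ) (J : List Ix) (χ : Ix → Bool) : List ℤ :=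
  (List.range (D + 1)).map fun y => (J.map fun e => sgn (χ e) * (c e).getD y 0).sum

/-- The correlation test. -/
def pass (δ D N κ : ℕ) (c : Ix → List ℤ) (J : List Ix) (χ : Ix → Bool) : Bool :=
  decide (((N + 4 * κ : ℕ) : ℤ) * rdet δ D (J.map c) ≤
    ((4 * κ : ℕ) : ℤ) * rdet δ D (svec D c J χ :: J.map c))

section PT

variable {α : Type} [N487b59b3 α] {δ D N κ : α → ℕ} {c : α → Ix → List ℤ} {J : α → List Ix}

theorem pt_del (hδ : PT δ) (hD : PT D) (bD : PB D) (hN : PT N) (hκ : PT κ)
    (hc : PT fun q : α × Ix => c q.1 q.2) (hJ : PT J) {k : α → Ix} (hk : PT k) :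
    PT fun a => del (δ a) (D a) (N a) (κ a) (c a) (J a) (k a) :=
  PT.intLt (by fun_prop) (by fun_prop)

theorem pt_prune (hδ : PT δ) (hD : PT D) (bD : PB D) (hN : PT N) (hκ : PT κ)
    (hc : PT fun q : α × Ix => c q.1 q.2) (hJ : PT J) :
    PT fun a => prune (δ a) (D a) (N a) (κ a) (c a) (J a) := by
  refine PT.iterate_grow (f := fun a => prune1 (δ a) (D a) (N a) (κ a) (c a)) ?_ (by fun_prop)
    (by fun_prop) hJ (g := fun _ => 0) (by fun_prop) fun a s => ?_
  · refine PT.elim (PT.find? (by fun_prop) ?_) (by fun_prop) (by fun_prop)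
    exact pt_del (α := (α × List Ix) × Ix) (c := fun q => c q.1.1) (by fun_prop) (by fun_prop)
      (by fun_prop) (by fun_prop) (by fun_prop) (by fun_prop) (by fun_prop) (by fun_prop)
  · unfold prune1
    cases s.find? (del (δ a) (D a) (N a) (κ a) (c a) s) with
    | none => simp
    | some k => exact sz_sublist List.filter_sublist

theorem pt_pass (hδ : PT δ) (hD : PT D) (bD : PB D) (hN : PT N) (hκ : PT κ)
    (hc : PT fun q : α × Ix => c q.1 q.2) (hJ : PT J) {χ : α → Ix → Bool}
    (hχ : PT fun q : α × Ix => χ q.1 q.2) :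
    PT fun a => pass (δ a) (D a) (N a) (κ a) (c a) (J a) (χ a) :=
  PT.intLe (by fun_prop) (by unfold svec; fun_prop)

end PT

/-- The real vectors given by the lists. -/
def cR (D : ℕ) (c : Ix → List ℤ) (e : Ix) : Fin (D + 1) → ℝ := cv (vec (D + 1) (c e))

variable {δ D N κ : ℕ} {c : Ix → List ℤ} {J : List Ix}

theorem rdet_map (hJ : J.Nodup) :
    (rdet δ D (J.map c) : ℝ) = (ridge ((δ : ℝ) + 1) J.toFinset (cR D c)).det := by
  rw [rdet_cast, List.map_map, ridge, List.sum_toFinset _ hJ]; rfl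

theorem pass_spec (hJ : J.Nodup) (χ : Ix → Bool) : pass δ D N κ c J χ = true ↔
    Pass ((δ : ℝ) + 1) N κ J.toFinset (cR D c) fun e => (sgn (χ e) : ℝ) := by
  have h1 : cv (vec (D + 1) (svec D c J χ)) = ∑ e ∈ J.toFinset, (sgn (χ e) : ℝ) • cR D c e := by
    ext y
    simp only [cv, vec, svec, cR, Finset.sum_apply, Pi.smul_apply, smul_eq_mul]
    rw [List.getD_eq_getElem _ _ (by simpa using y.2), List.getElem_map, List.getElem_range,
      ← List.sum_toFinset _ hJ]
    push_cast
    rfl
  have h2 : (rdet δ D (svec D c J χ :: J.map c) : ℝ) = (ridge ((δ : ℝ) + 1) J.toFinset (cR D c) +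
      vecMulVec (∑ e ∈ J.toFinset, (sgn (χ e) : ℝ) • cR D c e)
        (∑ e ∈ J.toFinset, (sgn (χ e) : ℝ) • cR D c e)).det := by
    rw [rdet_cast, List.map_cons, List.sum_cons, h1, List.map_map, ridge,
      List.sum_toFinset (fun i => vecMulVec (cR D c i) (cR D c i)) hJ, add_assoc,
      add_comm (vecMulVec _ _)]
    rfl
  unfold Pass pass
  rw [← h2, ← rdet_map hJ, decide_eq_true_eq]
  norm_cast

theorem toFinset_ne (J : List Ix) (k : Ix) :
    (J.filter fun e => decide (e ≠ k)).toFinset = J.toFinset.erase k := by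
  ext e; simp [and_comm]

theorem del_spec (hJ : J.Nodup) (k : Ix) : del δ D N κ c J k = true ↔
    ((N : ℝ) + κ) * (ridge ((δ : ℝ) + 1) (J.toFinset.erase k) (cR D c)).det <
      N * (ridge ((δ : ℝ) + 1) J.toFinset (cR D c)).det := by
  unfold del
  rw [← toFinset_ne, ← rdet_map hJ, ← rdet_map (hJ.filter _), decide_eq_true_eq]
  norm_cast

theorem iter_spec (hN : 0 < N) (hJ : J.Nodup) (n : ℕ) :
    ((prune1 δ D N κ c)^[n] J).Sublist J ∧ ∃ t : ℕ,
      t + ((prune1 δ D N κ c)^[n] J).length = J.length ∧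
      (1 + (κ : ℝ) / N) ^ t *
        (ridge ((δ : ℝ) + 1) ((prune1 δ D N κ c)^[n] J).toFinset (cR D c)).det ≤
        (ridge ((δ : ℝ) + 1) J.toFinset (cR D c)).det ∧
      (n ≤ t ∨ Stable ((δ : ℝ) + 1) N κ ((prune1 δ D N κ c)^[n] J).toFinset (cR D c)) := by
  induction n with
  | zero => exact ⟨by simp, 0, by simp, by simp, Or.inl le_rfl⟩
  | succ n ih =>
    obtain ⟨h1, t, h2, h3, h4⟩ := ih
    rw [Function.iterate_succ_apply']
    generalize (prune1 δ D N κ c)^[n] J = M at h1 h2 h3 h4
    have hM := hJ.sublist h1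
    unfold prune1
    cases h : M.find? (del δ D N κ c M) with
    | none =>
      refine ⟨h1, t, h2, h3, Or.inr fun k hk => ?_⟩
      exact not_lt.1 fun h5 => List.find?_eq_none.1 h k (List.mem_toFinset.1 hk)
        ((del_spec hM k).2 h5)
    | some k =>
      have h5 := (del_spec hM k).1 (List.find?_some h)
      have h6 := List.mem_toFinset.2 (List.mem_of_find?_eq_some h)
      have hN' : (0 : ℝ) < N := by exact_mod_cast hN
      simp only [Option.elim_some]
      refine ⟨List.filter_sublist.trans h1, t + 1, ?_, ?_, Or.inl ?_⟩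
      · rw [← List.toFinset_card_of_nodup (hM.filter _), toFinset_ne, card_erase_of_mem h6,
          ← h2, ← List.toFinset_card_of_nodup hM]
        have := card_pos.2 ⟨k, h6⟩
        omega
      · rw [toFinset_ne, pow_succ, mul_assoc]
        refine (mul_le_mul_of_nonneg_left ?_ (by positivity)).trans h3
        refine le_of_mul_le_mul_left ?_ hN'
        rw [← mul_assoc, mul_add, mul_one, mul_div_cancel₀ _ hN'.ne']
        exact h5.le
      · rcases h4 with h4 | h4
        · omega
        · exact absurd (h4 k h6) (not_le.2 h5)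

theorem prune_spec (hJ : J.Nodup) (hN : J.length = N) (hN0 : 0 < N) (hκ : κ ≤ N)
    (hp : ∏ y, (1 + (∑ e ∈ J.toFinset, cR D c e y ^ 2) / ((δ : ℝ) + 1)) < Real.exp (κ / 4)) :
    (prune δ D N κ c J).Sublist J ∧ N ≤ 2 * (prune δ D N κ c J).length ∧
      Stable ((δ : ℝ) + 1) N κ (prune δ D N κ c J).toFinset (cR D c) := by
  obtain ⟨h1, t, h2, h3, h4⟩ := iter_spec (δ := δ) (D := D) (κ := κ) (c := c) hN0 hJ J.length
  unfold prune
  generalize (prune1 δ D N κ c)^[J.length] J = M at h1 h2 h3 h4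
  have hδ : (0 : ℝ) < δ + 1 := by positivity
  have hN' : (0 : ℝ) < N := by exact_mod_cast hN0
  refine ⟨h1, ?_, h4.elim (fun h => ?_) id⟩
  · by_contra h5
    have h6 : (N : ℝ) ≤ 2 * t := by exact_mod_cast (show N ≤ 2 * t by omega)
    have h7 : (κ : ℝ) / N ≤ 1 := (div_le_one hN').2 (by exact_mod_cast hκ)
    have h0 : (0 : ℝ) ≤ κ / N := by positivity
    have h8 : Real.exp (κ / N / 2) ≤ 1 + κ / N := by
      have h9 := Real.add_one_le_exp (-((κ : ℝ) / N / 2))
      have h10 : Real.exp (κ / N / 2) * Real.exp (-((κ : ℝ) / N / 2)) = 1 := by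
        rw [← Real.exp_add]; simp
      have h11 := Real.exp_pos ((κ : ℝ) / N / 2)
      generalize (κ : ℝ) / N = x at *
      generalize Real.exp (x / 2) = u at *
      generalize Real.exp (-(x / 2)) = w at *
      nlinarith [mul_le_mul_of_nonneg_left h9 h11.le]
    have h9 : Real.exp (κ / 4) ≤ (1 + (κ : ℝ) / N) ^ t := by
      refine le_trans ?_ (pow_le_pow_left₀ (Real.exp_pos _).le h8 t)
      rw [← Real.exp_nat_mul, Real.exp_le_exp]
      have : (κ : ℝ) = κ / N * N := by field_simp
      nlinarith [mul_le_mul_of_nonneg_left h6 h0]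
    have h10 := (ridge_good hδ M.toFinset (cR D c)).2.1
    have h11 := ridge_det_le hδ J.toFinset (cR D c)
    have h12 : (0 : ℝ) < ((δ : ℝ) + 1) ^ Fintype.card (Fin (D + 1)) := by positivity
    have h13 := mul_le_mul h9 h10 h12.le (by positivity)
    have h14 := mul_lt_mul_of_pos_left hp h12
    nlinarith
  · have : M = [] := List.length_eq_zero_iff.1 (by omega)
    subst this
    intro k hk
    simp at hk

end Pool.Agent.Lib.MP_79d702_lc.Thr
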