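import Pool.Agent.Lib.MP_79d702_lc.Thr.Ridge
import Pool.Agent.Shared.PolyTimeInt

/-!
Polynomial-time computation of the determinant of a ridge matrix by fraction-free rank-one updates.
-/

namespace Pool.Agent.Lib.MP_79d702_lc.Thr

open Finset Matrix Pool.Agent.Shared.PolyTime N487b59b3

attribute [local fun_prop] PB.comp

section Adj

variable {ι : Type*} [Fintype ι] [DecidableEq ι]

/-- The cast of an integer vector. -/
def cv (c : ι → ℤ) : ι → ℝ := fun y => (c y : ℝ)

/-- The cast of an integer matrix. -/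
def cm (P : Matrix ι ι ℤ) : Matrix ι ι ℝ := P.map (Int.castRingHom ℝ)

theorem det_cm (P : Matrix ι ι ℤ) : (cm P).det = (P.det : ℝ) :=
  ((Int.castRingHom ℝ).map_det P).symm

omit [Fintype ι] in
theorem cm_ridge {I : Type*} (δ : ℤ) (J : Finset I) (c : I → ι → ℤ) :
    cm (ridge δ J c) = ridge (δ : ℝ) J fun i => cv (c i) := by
  ext y y'
  simp only [cm, ridge, cv, Matrix.sum_apply, vecMulVec_apply, Matrix.one_apply, map_apply,
    Matrix.add_apply, Matrix.smul_apply, smul_eq_mul, eq_intCast]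
  push_cast
  rfl

omit [Fintype ι] [DecidableEq ι] in
theorem cm_add (P : Matrix ι ι ℤ) (c : ι → ℤ) :
    cm (P + vecMulVec c c) = cm P + vecMulVec (cv c) (cv c) := by
  ext y y'
  simp [cm, cv, vecMulVec_apply]

theorem adj_cast {δ : ℝ} {P : Matrix ι ι ℤ} (h : Good δ (cm P)) (x y : ι → ℤ) :
    ((x ⬝ᵥ P.adjugate *ᵥ y : ℤ) : ℝ) = P.det * fm (cm P) (cv x) (cv y) := by
  have h1 : (cm P).adjugate = cm P.adjugate := ((Int.castRingHom ℝ).map_adjugate P).symm
  rw [fm_apply, Matrix.inv_def, smul_mulVec, dotProduct_smul, Ring.inverse_eq_inv', smul_eq_mul,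
    ← det_cm, ← mul_assoc, mul_inv_cancel₀ h.det_pos.ne', one_mul, h1]
  simp [cm, cv, dotProduct, mulVec]

theorem fm_add {δ : ℝ} (hδ : 0 < δ) {P : Matrix ι ι ℝ} (h : Good δ P) (c x y : ι → ℝ) :
    (1 + fm P c c) * fm (P + vecMulVec c c) x y =
      (1 + fm P c c) * fm P x y - fm P x c * fm P y c := by
  have h1 := h.add hδ c
  have h2 : (P + vecMulVec c c) *ᵥ ((1 + fm P c c) • (P⁻¹ *ᵥ y) - fm P y c • (P⁻¹ *ᵥ c)) =
      (1 + fm P c c) • y := by
    rw [add_mulVec, vecMulVec_mulVec, mulVec_sub, mulVec_smul, mulVec_smul, h.mul_inv, h.mul_inv,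
      dotProduct_sub, dotProduct_smul, dotProduct_smul, ← fm_apply, ← fm_apply,
      (h.psd hδ).symm c y]
    ext z
    simp
    ring
  have h3 := h1.fm_mulVec x ((1 + fm P c c) • (P⁻¹ *ᵥ y) - fm P y c • (P⁻¹ *ᵥ c))
  rw [h2, map_smul, dotProduct_sub, dotProduct_smul, dotProduct_smul, ← fm_apply,
    ← fm_apply] at h3
  simp only [smul_eq_mul] at h3
  rw [h3]; ring

theorem adj_add {δ : ℝ} (hδ : 0 < δ) {P : Matrix ι ι ℤ} (h : Good δ (cm P)) (c : ι → ℤ) :
    (P + vecMulVec c c).det = P.det + c ⬝ᵥ P.adjugate *ᵥ c ∧ ∀ x y : ι → ℤ,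
      (P.det + c ⬝ᵥ P.adjugate *ᵥ c) * (x ⬝ᵥ P.adjugate *ᵥ y) -
        (x ⬝ᵥ P.adjugate *ᵥ c) * (y ⬝ᵥ P.adjugate *ᵥ c) =
      P.det * (x ⬝ᵥ (P + vecMulVec c c).adjugate *ᵥ y) := by
  have h1 : ((P + vecMulVec c c).det : ℝ) = P.det * (1 + fm (cm P) (cv c) (cv c)) := by
    rw [← det_cm, cm_add, h.det_add, det_cm]
  refine ⟨?_, fun x y => ?_⟩
  · have := adj_cast h c c
    exact_mod_cast (show ((P + vecMulVec c c).det : ℝ) = P.det + ((c ⬝ᵥ P.adjugate *ᵥ c : ℤ) : ℝ) by
      rw [h1, this]; ring)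
  · have h2 := adj_cast (δ := δ) (P := P + vecMulVec c c) (by rw [cm_add]; exact h.add hδ _) x y
    have h3 := fm_add hδ h (cv c) (cv x) (cv y)
    rw [h1, cm_add] at h2
    have h4 : (((P.det + c ⬝ᵥ P.adjugate *ᵥ c) * (x ⬝ᵥ P.adjugate *ᵥ y) -
        (x ⬝ᵥ P.adjugate *ᵥ c) * (y ⬝ᵥ P.adjugate *ᵥ c) : ℤ) : ℝ) =
        ((P.det * (x ⬝ᵥ (P + vecMulVec c c).adjugate *ᵥ y) : ℤ) : ℝ) := by
      rw [Int.cast_sub, Int.cast_mul, Int.cast_mul, Int.cast_mul, Int.cast_add, h2, adj_cast h,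
        adj_cast h, adj_cast h, adj_cast h]
      linear_combination -(P.det : ℝ) ^ 2 * h3
    exact_mod_cast h4

end Adj

/-- A list read as a vector. -/
def vec (D : ℕ) (l : List ℤ) : Fin D → ℤ := fun y => l.getD y 0

/-- The inner product of two lists. -/
def dot (D : ℕ) (u v : List ℤ) : ℤ := ((List.range D).map fun y => u.getD y 0 * v.getD y 0).sum

/-- An entry of a table. -/
def ent (G : List (List ℤ)) (i j : ℕ) : ℤ := (G.getD i []).getD j 0

/-- The table of a function. -/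
def tab (n : ℕ) (f : ℕ → ℕ → ℤ) : List (List ℤ) :=
  (List.range n).map fun i => (List.range n).map fun j => f i j

/-- One rank-one update. -/
def rstep (n : ℕ) (s : ℤ × List (List ℤ)) (k : ℕ) : ℤ × List (List ℤ) :=
  (s.1 + ent s.2 k k,
    tab n fun i j => idiv ((s.1 + ent s.2 k k) * ent s.2 i j - ent s.2 i k * ent s.2 j k) s.1)

/-- The initial state. -/
def rinit (δ D : ℕ) (C : List (List ℤ)) : ℤ × List (List ℤ) :=
  (((δ + 1) ^ (D + 1) : ℕ), tab C.length fun i j =>
    ((δ + 1) ^ D : ℕ) * dot (D + 1) (C.getD i []) (C.getD j []))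

/-- The determinant of the ridge matrix with parameter `δ + 1` in dimension `D + 1`. -/
def rdet (δ D : ℕ) (C : List (List ℤ)) : ℤ :=
  ((List.range C.length).foldl (rstep C.length) (rinit δ D C)).1

theorem sum_range_list {M : Type*} [AddCommMonoid M] (f : ℕ → M) (n : ℕ) :
    ((List.range n).map f).sum = ∑ j ∈ range n, f j := by
  induction n with
  | zero => simp
  | succ n ih => rw [List.range_succ, sum_range_succ, ← ih]; simp

theorem dot_eq (D : ℕ) (u v : List ℤ) : dot D u v = vec D u ⬝ᵥ vec D v := by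
  rw [dot, sum_range_list, sum_range]; rfl

theorem ent_tab {n i j : ℕ} (f : ℕ → ℕ → ℤ) (hi : i < n) (hj : j < n) :
    ent (tab n f) i j = f i j := by
  simp [ent, tab, List.getD_eq_getElem?_getD, hi, hj]

theorem tab_congr {n : ℕ} {f g : ℕ → ℕ → ℤ} (h : ∀ i < n, ∀ j < n, f i j = g i j) :
    tab n f = tab n g :=
  List.map_congr_left fun i hi => List.map_congr_left fun j hj =>
    h i (List.mem_range.1 hi) j (List.mem_range.1 hj)

/-- The ridge matrix of the first `k` rows. -/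
def rk (δ D : ℕ) (C : List (List ℤ)) (k : ℕ) : Matrix (Fin (D + 1)) (Fin (D + 1)) ℤ :=
  ridge ((δ : ℤ) + 1) (range k) fun i => vec (D + 1) (C.getD i [])

theorem rk_good (δ D : ℕ) (C : List (List ℤ)) (k : ℕ) : Good ((δ : ℝ) + 1) (cm (rk δ D C k)) := by
  rw [rk, cm_ridge]
  push_cast
  exact (ridge_good (by positivity) _ _).1

theorem fold_eq (δ D : ℕ) (C : List (List ℤ)) : ∀ k ≤ C.length,
    (List.range k).foldl (rstep C.length) (rinit δ D C) = ((rk δ D C k).det, tab C.length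
      fun i j => vec (D + 1) (C.getD i []) ⬝ᵥ (rk δ D C k).adjugate *ᵥ vec (D + 1) (C.getD j [])) := by
  intro k
  induction k with
  | zero =>
    intro _
    have : rk δ D C 0 = ((δ : ℤ) + 1) • 1 := by simp [rk, ridge]
    rw [this, det_smul, adjugate_smul, adjugate_one]
    simp only [List.range_zero, List.foldl_nil, rinit, dot_eq, smul_mulVec, one_mulVec,
      dotProduct_smul]
    simp
  | succ k ih =>
    intro hk
    rw [List.range_succ, List.foldl_append, ih (by omega), List.foldl_cons, List.foldl_nil]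
    have h1 : rk δ D C (k + 1) = rk δ D C k +
        vecMulVec (vec (D + 1) (C.getD k [])) (vec (D + 1) (C.getD k [])) := by
      rw [rk, range_add_one, ridge_insert _ notMem_range_self]; rfl
    have h2 := rk_good δ D C k
    obtain ⟨h3, h4⟩ := adj_add (by positivity) h2 (vec (D + 1) (C.getD k []))
    have h5 : 0 < (rk δ D C k).det := by
      have := h2.det_pos
      rw [det_cm] at this
      exact_mod_cast this
    rw [rstep, h1, h3]
    simp only [ent_tab _ (show k < C.length by omega) (show k < C.length by omega)]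
    congr 1
    refine tab_congr fun i hi j hj => ?_
    rw [ent_tab _ hi hj, ent_tab _ hi (by omega), ent_tab _ hj (by omega), h4, idiv_mul h5]

theorem rdet_eq (δ D : ℕ) (C : List (List ℤ)) : rdet δ D C = (rk δ D C C.length).det := by
  rw [rdet, fold_eq δ D C _ le_rfl]

theorem sum_getD {M β : Type*} [AddCommMonoid M] (f : β → M) (d : β) (l : List β) :
    ∑ i ∈ range l.length, f (l.getD i d) = (l.map f).sum := by
  induction l with
  | nil => simp
  | cons a l ih => rw [List.length_cons, sum_range_succ', List.map_cons, List.sum_cons, ← ih]; simp [add_comm]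

theorem rdet_cast (δ D : ℕ) (C : List (List ℤ)) : (rdet δ D C : ℝ) = (((δ : ℝ) + 1) • 1 +
    (C.map fun l => vecMulVec (cv (vec (D + 1) l)) (cv (vec (D + 1) l))).sum).det := by
  rw [rdet_eq, ← det_cm, rk, cm_ridge, ridge, ← sum_getD _ []]
  push_cast
  rfl

theorem getD_lt (C : List (List ℤ)) (i y : ℕ) : ((C.getD i []).getD y 0).natAbs < 2 ^ sz C := by
  by_cases hi : i < C.length
  · rw [List.getD_eq_getElem _ _ hi]
    by_cases hy : y < C[i].length
    · rw [List.getD_eq_getElem _ _ hy]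
      have h1 := sz_mem (List.getElem_mem hi)
      have h2 := sz_mem (List.getElem_mem hy)
      exact (natAbs_lt_sz _).trans_le (Nat.pow_le_pow_right two_pos (by omega))
    · rw [List.getD_eq_default _ _ (not_lt.1 hy)]; simp
  · rw [List.getD_eq_default _ _ (not_lt.1 hi)]; simp

theorem sq_getD_le (C : List (List ℤ)) (i y : ℕ) :
    (((C.getD i []).getD y 0 : ℤ) : ℝ) ^ 2 ≤ 2 ^ (2 * sz C) := by
  have h1 : |(((C.getD i []).getD y 0 : ℤ) : ℝ)| ≤ 2 ^ sz C := by
    have := (getD_lt C i y).le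
    rw [← Int.cast_abs, Int.abs_eq_natAbs]
    exact_mod_cast this
  rw [← sq_abs, mul_comm, pow_mul]
  exact pow_le_pow_left₀ (abs_nonneg _) h1 2

theorem rk_bound (δ D : ℕ) (C : List (List ℤ)) {k : ℕ} (hk : k ≤ C.length) :
    ((rk δ D C k).det : ℝ) ≤ 2 ^ ((sz δ + 3 * sz C + 1) * (D + 1)) ∧ ∀ i j,
      |((vec (D + 1) (C.getD i []) ⬝ᵥ (rk δ D C k).adjugate *ᵥ vec (D + 1) (C.getD j []) : ℤ) : ℝ)|
        ≤ 2 ^ ((sz δ + 3 * sz C + 1) * (D + 1) + (D + 1 + 2 * sz C)) := by
  have hδ : (0 : ℝ) < δ + 1 := by positivity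
  have hδ1 : (1 : ℝ) ≤ δ + 1 := by linarith [Nat.cast_nonneg (α := ℝ) δ]
  have h1 : ((rk δ D C k).det : ℝ) ≤ 2 ^ ((sz δ + 3 * sz C + 1) * (D + 1)) := by
    rw [← det_cm, rk, cm_ridge]
    push_cast
    refine (ridge_det_le hδ _ _).trans ?_
    have h2 : (δ : ℝ) + 1 ≤ 2 ^ sz δ := by
      have : δ + 1 ≤ 2 ^ sz δ := by rw [sz_nat]; exact Nat.lt_size_self δ
      exact_mod_cast this
    have h3 : (k : ℝ) ≤ 2 ^ sz C := by
      have : k ≤ 2 ^ sz C := (hk.trans (length_le_sz C)).trans Nat.lt_two_pow_self.le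
      exact_mod_cast this
    have h4 : ∀ y : Fin (D + 1), 1 + (∑ i ∈ range k, cv (vec (D + 1) (C.getD i [])) y ^ 2) /
        ((δ : ℝ) + 1) ≤ 2 ^ (3 * sz C + 1) := by
      intro y
      have h5 := sum_le_card_nsmul (range k) (fun i => cv (vec (D + 1) (C.getD i [])) y ^ 2) _
        fun i _ => sq_getD_le C i y
      rw [card_range, nsmul_eq_mul] at h5
      have h6 := div_le_self (sum_nonneg (s := range k) fun i _ =>
        sq_nonneg (cv (vec (D + 1) (C.getD i [])) y)) hδ1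
      have h7 : (k : ℝ) * 2 ^ (2 * sz C) ≤ 2 ^ (3 * sz C) := by
        rw [show 3 * sz C = sz C + 2 * sz C by ring, pow_add]
        exact mul_le_mul_of_nonneg_right h3 (by positivity)
      have h8 : (1 : ℝ) ≤ 2 ^ (3 * sz C) := one_le_pow₀ one_le_two
      rw [pow_succ]
      linarith
    calc _ ≤ ((2 : ℝ) ^ sz δ) ^ Fintype.card (Fin (D + 1)) *
          ∏ _y : Fin (D + 1), (2 : ℝ) ^ (3 * sz C + 1) :=
          mul_le_mul (pow_le_pow_left₀ hδ.le h2 _) (prod_le_prod (fun y _ => by positivity)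
            fun y _ => h4 y) (prod_nonneg fun y _ => by positivity) (by positivity)
      _ = _ := by
          rw [prod_const, card_univ, Fintype.card_fin, ← mul_pow, ← pow_add, ← pow_mul, add_assoc]
  refine ⟨h1, fun i j => ?_⟩
  have hg := rk_good δ D C k
  have h2 : ∀ i, fm (cm (rk δ D C k)) (cv (vec (D + 1) (C.getD i []))) (cv (vec (D + 1)
      (C.getD i []))) ≤ 2 ^ (D + 1 + 2 * sz C) := by
    intro i
    refine (hg.fm_le hδ _).trans ((div_le_self (dot_self_nonneg _) hδ1).trans ?_)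
    refine (sum_le_card_nsmul univ _ _ fun (y : Fin (D + 1)) _ =>
      (sq _).symm.trans_le (sq_getD_le C i y)).trans ?_
    rw [card_univ, Fintype.card_fin, nsmul_eq_mul, pow_add]
    refine mul_le_mul_of_nonneg_right ?_ (by positivity)
    exact_mod_cast Nat.lt_two_pow_self.le
  have h3 := (hg.psd hδ).abs_le (cv (vec (D + 1) (C.getD i []))) (cv (vec (D + 1) (C.getD j [])))
  have h4 := hg.det_pos
  rw [det_cm] at h4
  rw [adj_cast hg, abs_mul, abs_of_pos h4, pow_add]
  exact mul_le_mul h1 (by linarith [h2 i, h2 j]) (abs_nonneg _) (by positivity)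

theorem sz_of_abs {z : ℤ} {w : ℕ} (h : |(z : ℝ)| ≤ 2 ^ w) : sz z ≤ 3 * (w + 1) + 1 := by
  refine sz_int_le ?_
  rw [← Int.cast_abs, Int.abs_eq_natAbs] at h
  have h1 : z.natAbs ≤ 2 ^ w := by exact_mod_cast h
  have := Nat.two_pow_pos w
  omega

variable {α : Type} [N487b59b3 α]

@[fun_prop] theorem pt_rdet {δ D : α → ℕ} {C : α → List (List ℤ)} (hδ : PT δ) (hD : PT D)
    (bD : PB D) (hC : PT C) : PT fun a => rdet (δ a) (D a) (C a) := by
  let W : α → ℕ := fun a => 3 * ((sz (δ a) + 3 * sz (C a) + 1) * (D a + 1) +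
    (D a + 1 + 2 * sz (C a)) + 1) + 1
  have hW : PB W := by fun_prop
  refine (PT.foldl (f := fun a s k => rstep (C a).length s k) (by unfold rstep tab ent; fun_prop)
    (by fun_prop) (by unfold rinit tab dot; fun_prop)
    (B := fun a => 2 * W a + 1 + (C a).length * (2 * ((C a).length * (2 * W a + 1)) + 1))
    (by fun_prop) fun a i => ?_).fst
  rw [List.take_range, fold_eq _ _ _ _ (min_le_right _ _), sz_pair]
  obtain ⟨h1, h2⟩ := rk_bound (δ a) (D a) (C a) (min_le_right i _)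
  have h3 := (rk_good (δ a) (D a) (C a) (min i (C a).length)).det_pos
  rw [det_cm] at h3
  have h4 := sz_of_abs ((abs_of_pos h3).trans_le h1)
  refine Nat.add_le_add (by simp only [W]; omega) ?_
  refine (sz_list_le (B := (C a).length * (2 * W a + 1)) fun r hr => ?_).trans (by simp [tab])
  obtain ⟨i', -, rfl⟩ := List.mem_map.1 hr
  refine (sz_list_le (B := W a) fun z hz => ?_).trans (by simp)
  obtain ⟨j', -, rfl⟩ := List.mem_map.1 hz
  exact sz_of_abs (h2 i' j')

end Pool.Agent.Lib.MP_79d702_lc.Thr
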