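import Pool.Agent.Lib.MP_79d702_lc.Thr.Core

/-!
The feature vectors of a family of weighted threshold queries to a sparse set.
-/

namespace Pool.Agent.Lib.MP_79d702_lc.Thr

open Finset Matrix Pool.Agent.Shared.PolyTime N487b59b3

attribute [local fun_prop] PB.comp

/-- A threshold and a list of weighted queries. -/
abbrev Rd := ℤ × List (ℤ × List Bool)

/-- All queried strings. -/
def qs (r : Ix → Rd) (p : ℕ) : List (List Bool) :=
  ((idx p).flatMap fun e => (r e).2.map Prod.snd).dedup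

/-- The total weight of a string. -/
def wt (l : List (ℤ × List Bool)) (y : List Bool) : ℤ :=
  ((l.filter fun q => decide (q.2 = y)).map Prod.fst).sum

/-- The feature vector of a test. -/
def feat (r : Ix → Rd) (p : ℕ) (e : Ix) : List ℤ :=
  (1 - 2 * (r e).1) :: (qs r p).map fun y => 2 * wt (r e).2 y

/-- The leverage parameter. -/
def kap (R : ℕ) : ℕ := 128 * (R + 1) ^ 6

/-- The ridge parameter minus one. -/
def dlt (p R : ℕ) : ℕ := p * (p * p) / (2 * (R + 1)) - 1

/-- The tests that are kept. -/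
def kept (r : Ix → Rd) (p R : ℕ) : List Ix :=
  prune (dlt p R) (qs r p).length (p * (p * p)) (kap R) (feat r p) (idx p)

/-- The correlation test for the codeword of `y`. -/
def ok (r : Ix → Rd) (p m R y : ℕ) : Bool :=
  pass (dlt p R) (qs r p).length (p * (p * p)) (kap R) (feat r p) (kept r p R)
    fun e => tbit p m e y

section PT

variable {α : Type} [N487b59b3 α] {p m R y : α → ℕ} {r : α → Ix → Rd}

theorem pt_qs (hr : PT fun q : α × Ix => r q.1 q.2) (hp : PT p) (bp : PB p) :
    PT fun a => qs (r a) (p a) := by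
  unfold qs; fun_prop

theorem pt_kap (hR : PT R) : PT fun a => kap (R a) := by unfold kap; fun_prop

theorem pt_ok (hr : PT fun q : α × Ix => r q.1 q.2) (hp : PT p) (bp : PB p) (hm : PT m)
    (bm : PB m) (hR : PT R) (hy : PT y) : PT fun a => ok (r a) (p a) (m a) (R a) (y a) := by
  have h1 := pt_qs hr hp bp
  have h2 : PT fun a => dlt (p a) (R a) := by unfold dlt; fun_prop
  have h3 : PT fun q : α × Ix => feat (r q.1) (p q.1) q.2 := by
    have h4 : PT fun q : α × Ix => qs (r q.1) (p q.1) := h1.comp' (by fun_prop)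
    unfold feat wt; fun_prop
  exact pt_pass h2 (by fun_prop) (by fun_prop) (by fun_prop) (pt_kap hR) h3
    (pt_prune h2 (by fun_prop) (by fun_prop) (by fun_prop) (pt_kap hR) h3 (by fun_prop))
    (by fun_prop)

end PT

theorem cv_succ {β : Type} (a : ℤ) (Y : List β) (f : β → ℤ) (j : Fin Y.length) :
    cv (vec (Y.length + 1) (a :: Y.map f)) j.succ = f Y[j.1] := by
  simp [cv, vec, List.getD_eq_getElem?_getD]

theorem dot_cons {β : Type} [DecidableEq β] (a b : ℤ) {Y : List β} (hY : Y.Nodup) (f g : β → ℤ) :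
    cv (vec (Y.length + 1) (a :: Y.map f)) ⬝ᵥ cv (vec (Y.length + 1) (b :: Y.map g)) =
      ((a * b + ∑ y ∈ Y.toFinset, f y * g y : ℤ) : ℝ) := by
  rw [dotProduct, Fin.sum_univ_succ]
  simp only [cv_succ]
  rw [Fin.sum_univ_fun_getElem Y fun y => (f y : ℝ) * g y, ← List.sum_toFinset _ hY]
  simp [cv, vec]

theorem sum_wt (S : List Bool → Bool) (F : Finset (List Bool)) : ∀ l : List (ℤ × List Bool),
    (∀ q ∈ l, q.2 ∈ F) → ∑ y ∈ F, wt l y * cond (S y) 1 0 =
      ((l.filter fun q => S q.2).map Prod.fst).sum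
  | [], _ => by simp [wt]
  | q :: l, h => by
    have h1 := sum_wt S F l fun q' hq' => h q' (List.mem_cons_of_mem _ hq')
    have h2 : ∀ y, wt (q :: l) y = (if q.2 = y then q.1 else 0) + wt l y := fun y => by
      unfold wt
      by_cases e : q.2 = y <;> simp [e]
    simp only [h2, add_mul, sum_add_distrib, h1, ite_mul, zero_mul, sum_ite_eq,
      h q List.mem_cons_self, if_true, List.filter_cons]
    cases S q.2 <;> simp

theorem abs_wt_le {y : List Bool} {B : ℕ} : ∀ l : List (ℤ × List Bool),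
    (∀ q ∈ l, q.2 = y → q.1.natAbs ≤ B) → (wt l y).natAbs ≤ l.length * B
  | [], _ => by simp [wt]
  | q :: l, h => by
    have h1 := abs_wt_le l fun q' hq' => h q' (List.mem_cons_of_mem _ hq')
    have h2 := h q List.mem_cons_self
    unfold wt at h1 ⊢
    rw [List.length_cons, add_mul]
    by_cases e : q.2 = y
    · have := h2 e
      simp only [e, List.filter_cons, decide_true, if_true, List.map_cons, List.sum_cons]
      omega
    · simp only [e, List.filter_cons, decide_false, Bool.false_eq_true, if_false]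
      omega

theorem sq_le_of_natAbs {z : ℤ} {B : ℕ} (h : z.natAbs ≤ B) : (z : ℝ) ^ 2 ≤ (B : ℝ) ^ 2 := by
  rw [← sq_abs, ← Int.cast_abs, Int.abs_eq_natAbs]
  exact pow_le_pow_left₀ (by positivity) (by exact_mod_cast h) 2

/-- The size conditions on a family of tests. -/
structure Small (r : Ix → Rd) (p R : ℕ) (S T : List Bool → Bool) : Prop where
  hS : #{y ∈ (qs r p).toFinset | S y = true} ≤ R
  hT : #{y ∈ (qs r p).toFinset | T y = true} ≤ R
  hsz : ∀ e ∈ idx p, sz (r e) ≤ R
  hw : ∀ e ∈ idx p, ∀ q ∈ (r e).2, T q.2 = true ∨ q.1.natAbs ≤ R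
  hp : p ≤ 2 ^ R
  hκ : kap R ≤ p

variable {r : Ix → Rd} {p R : ℕ} {S T : List Bool → Bool}

theorem Small.dlt_spec (h : Small r p R S T) : 0 < p ∧ kap R ≤ p * (p * p) ∧
    (dlt p R + 1) * (2 * (R + 1)) ≤ p * (p * p) ∧ p * (p * p) ≤ (dlt p R + 1) * (4 * (R + 1)) := by
  have h1 : R + 1 ≤ (R + 1) ^ 6 := Nat.le_self_pow (by omega) _
  have h2 := h.hκ
  unfold kap at h2 ⊢
  have h3 : p ≤ p * (p * p) := Nat.le_mul_of_pos_right _ (Nat.mul_pos (by omega) (by omega))
  unfold dlt
  generalize p * (p * p) = N at *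
  have h4 : 0 < N / (2 * (R + 1)) := Nat.div_pos (by omega) (by omega)
  have h5 := Nat.div_mul_le_self N (2 * (R + 1))
  have h6 := Nat.lt_div_mul_add (a := N) (show 0 < 2 * (R + 1) by omega)
  rw [Nat.sub_add_cancel h4]
  refine ⟨by omega, by omega, h5, ?_⟩
  nlinarith

theorem Small.pot (h : Small r p R S T) :
    ∏ y, (1 + (∑ e ∈ (idx p).toFinset, cR (qs r p).length (feat r p) e y ^ 2) /
      ((dlt p R : ℝ) + 1)) < Real.exp (kap R / 4) := by
  obtain ⟨h0, -, -, h1⟩ := h.dlt_spec
  have hδ : (1 : ℝ) ≤ dlt p R + 1 := by linarith [Nat.cast_nonneg (α := ℝ) (dlt p R)]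
  have hN : ((idx p).toFinset.card : ℝ) = (p * (p * p) : ℕ) := by
    rw [List.toFinset_card_of_nodup (idx_nodup p), idx_length]
  have hlen : ∀ e ∈ idx p, (r e).2.length ≤ R := fun e he => by
    have h2 := h.hsz e he
    have h3 := length_le_sz (r e).2
    rw [sz_prod] at h2; omega
  have hbig : ∀ f : Ix → ℤ, (∀ e ∈ idx p, (f e).natAbs ≤ 2 ^ (2 * R + 2)) →
      1 + (∑ e ∈ (idx p).toFinset, (f e : ℝ) ^ 2) / ((dlt p R : ℝ) + 1) ≤
        Real.exp (7 * (R + 1)) := by
    intro f hf
    have h2 := sum_le_card_nsmul (idx p).toFinset (fun e => (f e : ℝ) ^ 2) _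
      fun e he => sq_le_of_natAbs (hf e (List.mem_toFinset.1 he))
    have h3 := div_le_self (sum_nonneg (s := (idx p).toFinset) fun e _ => sq_nonneg (f e : ℝ)) hδ
    have h4 : 1 + p * (p * p) * (2 ^ (2 * R + 2)) ^ 2 ≤ 2 ^ (7 * (R + 1)) := by
      have h5 := Nat.mul_le_mul h.hp (Nat.mul_le_mul h.hp h.hp)
      have h6 := Nat.mul_le_mul_right ((2 ^ (2 * R + 2)) ^ 2) h5
      have h7 : 2 ^ R * (2 ^ R * 2 ^ R) * (2 ^ (2 * R + 2)) ^ 2 = 2 ^ (7 * R + 4) := by ring
      have h8 : 2 ^ (7 * (R + 1)) = 8 * 2 ^ (7 * R + 4) := by ring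
      have := Nat.two_pow_pos (7 * R + 4)
      omega
    have h5 : (2 : ℝ) ^ (7 * (R + 1)) ≤ Real.exp (7 * (R + 1)) := by
      refine (pow_le_pow_left₀ two_pos.le (show (2 : ℝ) ≤ Real.exp 1 by
        linarith [Real.add_one_le_exp (1 : ℝ)]) _).trans_eq ?_
      rw [← Real.exp_nat_mul]; push_cast; ring_nf
    rw [nsmul_eq_mul, hN] at h2
    have h6 : (1 : ℝ) + (p * (p * p) : ℕ) * ((2 ^ (2 * R + 2) : ℕ) : ℝ) ^ 2 ≤ 2 ^ (7 * (R + 1)) := by
      exact_mod_cast h4
    linarith
  have hY : (qs r p).Nodup := List.nodup_dedup _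
  rw [Fin.prod_univ_succ]
  simp only [cR, feat, cv_succ]
  rw [Fin.prod_univ_fun_getElem (qs r p) fun y => 1 + (∑ e ∈ (idx p).toFinset,
    ((2 * wt (r e).2 y : ℤ) : ℝ) ^ 2) / ((dlt p R : ℝ) + 1), ← List.prod_toFinset _ hY]
  have hA := hbig (fun e => 1 - 2 * (r e).1) fun e he => by
    have h2 := h.hsz e he
    have h3 := natAbs_lt_sz (r e).1
    rw [sz_prod] at h2
    have h4 : 2 ^ sz (r e).1 ≤ 2 ^ (2 * R) := Nat.pow_le_pow_right two_pos (by omega)
    rw [pow_add]; omega
  have hB : ∀ y ∈ (qs r p).toFinset, 1 + (∑ e ∈ (idx p).toFinset,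
      ((2 * wt (r e).2 y : ℤ) : ℝ) ^ 2) / ((dlt p R : ℝ) + 1) ≤ Real.exp
      ((if T y = true then 7 * ((R : ℝ) + 1) else 0) + (∑ e ∈ (idx p).toFinset,
        if y ∈ (r e).2.map Prod.snd then 4 * (R : ℝ) ^ 4 else 0) / ((dlt p R : ℝ) + 1)) := by
    intro y _
    by_cases hy : T y = true
    · rw [if_pos hy]
      refine (hbig (fun e => 2 * wt (r e).2 y) fun e he => ?_).trans (Real.exp_le_exp.2
        (le_add_of_nonneg_right (div_nonneg (sum_nonneg fun e _ => by positivity) (by linarith))))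
      have h2 := abs_wt_le (y := y) (B := 2 ^ R) (r e).2 fun q hq _ => by
        have h2 := h.hsz e he
        have h3 := natAbs_lt_sz q.1
        have h4 := sz_mem hq
        rw [sz_prod] at h2 h4
        exact h3.le.trans (Nat.pow_le_pow_right two_pos (by omega))
      have h3 := Nat.mul_le_mul_right (2 ^ R) ((hlen e he).trans Nat.lt_two_pow_self.le)
      rw [← pow_add, ← two_mul] at h3
      rw [pow_add]; omega
    · rw [if_neg hy, zero_add, add_comm]
      refine le_trans (add_le_add_left (div_le_div_of_nonneg_right (sum_le_sum fun e he => ?_)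
        (by linarith)) _) (Real.add_one_le_exp _)
      have he' := List.mem_toFinset.1 he
      split_ifs with h2
      · have h3 := abs_wt_le (y := y) (B := R) (r e).2 fun q hq e' =>
          (h.hw e he' q hq).resolve_left (e' ▸ hy)
        have h4 := Nat.mul_le_mul_right R (hlen e he')
        refine (sq_le_of_natAbs (B := 2 * (R * R)) (by omega)).trans_eq ?_
        push_cast; ring
      · have h3 := abs_wt_le (y := y) (B := 0) (r e).2 fun q hq e' =>
          absurd (List.mem_map.2 ⟨q, hq, e'⟩) h2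
        simpa using sq_le_of_natAbs (z := 2 * wt (r e).2 y) (B := 0) (by omega)
  refine (mul_le_mul hA (prod_le_prod (fun y _ => by positivity) hB)
    (prod_nonneg fun y _ => by positivity) (Real.exp_pos _).le).trans_lt ?_
  rw [← Real.exp_sum, ← Real.exp_add, Real.exp_lt_exp, sum_add_distrib, ← sum_filter, sum_const,
    nsmul_eq_mul, ← sum_div, sum_comm]
  have h2 : (#{y ∈ (qs r p).toFinset | T y = true} : ℝ) ≤ R := by exact_mod_cast h.hT
  have h3 := sum_le_card_nsmul (idx p).toFinset (fun e => ∑ y ∈ (qs r p).toFinset,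
      if y ∈ (r e).2.map Prod.snd then 4 * (R : ℝ) ^ 4 else 0) (R * (4 * (R : ℝ) ^ 4))
    fun e he => by
      rw [← sum_filter, sum_const, nsmul_eq_mul]
      refine mul_le_mul_of_nonneg_right ?_ (by positivity)
      have h4 := hlen e (List.mem_toFinset.1 he)
      have h5 : #{y ∈ (qs r p).toFinset | y ∈ (r e).2.map Prod.snd} ≤
          ((r e).2.map Prod.snd).toFinset.card :=
        card_le_card fun y hy => List.mem_toFinset.2 (mem_filter.1 hy).2
      have h6 := List.toFinset_card_le ((r e).2.map Prod.snd)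
      rw [List.length_map] at h6
      exact_mod_cast (h5.trans h6).trans h4
  rw [nsmul_eq_mul, hN] at h3
  have h4 : ((p * (p * p) : ℕ) : ℝ) ≤ (dlt p R + 1) * (4 * (R + 1)) := by exact_mod_cast h1
  have h5 := (div_le_iff₀' (show (0 : ℝ) < dlt p R + 1 by linarith)).2
    (h3.trans ((mul_le_mul_of_nonneg_right h4 (by positivity)).trans_eq (mul_assoc _ _ _)))
  have h6 := mul_le_mul_of_nonneg_right h2 (show 0 ≤ 7 * ((R : ℝ) + 1) by positivity)
  have h7 : (0 : ℝ) ≤ R := Nat.cast_nonneg R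
  have h8 : (kap R : ℝ) / 4 = 32 * (R + 1) ^ 6 := by unfold kap; push_cast; ring
  rw [h8]
  have h9 : 7 * ((R : ℝ) + 1) + (R * (7 * (R + 1)) + 4 * (R + 1) * (R * (4 * R ^ 4))) <
      32 * (R + 1) ^ 6 := by
    ring_nf
    nlinarith [pow_nonneg h7 2, pow_nonneg h7 3, pow_nonneg h7 4, pow_nonneg h7 5, pow_nonneg h7 6]
  linarith

theorem Small.kept_spec (h : Small r p R S T) : (kept r p R).Sublist (idx p) ∧
    p * (p * p) ≤ 2 * (kept r p R).length ∧ Stable ((dlt p R : ℝ) + 1) (p * (p * p) : ℕ) (kap R)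
      (kept r p R).toFinset (cR (qs r p).length (feat r p)) := by
  obtain ⟨h0, h1, -, -⟩ := h.dlt_spec
  exact prune_spec (idx_nodup p) (idx_length p) (by positivity) h1 h.pot

theorem Small.ok_true (h : Small r p R S T) {m y : ℕ} (hy : ∀ e ∈ idx p, (tbit p m e y = true ↔
    (r e).1 ≤ (((r e).2.filter fun q => S q.2).map Prod.fst).sum)) : ok r p m R y = true := by
  obtain ⟨h0, -, h1, -⟩ := h.dlt_spec
  obtain ⟨h2, h3, h4⟩ := h.kept_spec
  have h5 := (idx_nodup p).sublist h2
  have hY : (qs r p).Nodup := List.nodup_dedup _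
  have hN : 0 < p * (p * p) := by positivity
  refine (pass_spec h5 _).2 (h4.pass (by positivity) (by exact_mod_cast hN) ?_
    (cv (vec ((qs r p).length + 1) (1 :: (qs r p).map fun y => cond (S y) 1 0))) ?_ _ ?_)
  · rw [← card_pos, List.toFinset_card_of_nodup h5]; omega
  · rw [dot_cons _ _ hY, List.toFinset_card_of_nodup h5]
    have h6 : ∑ y ∈ (qs r p).toFinset, (cond (S y) 1 0 : ℤ) * cond (S y) 1 0 =
        #{y ∈ (qs r p).toFinset | S y = true} := by
      rw [card_filter]
      push_cast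
      exact sum_congr rfl fun y _ => by cases S y <;> simp
    rw [h6]
    have h7 := Nat.mul_le_mul_left (dlt p R + 1) (Nat.add_le_add_left h.hS 1)
    have h8 : (dlt p R + 1) * (1 + #{y ∈ (qs r p).toFinset | S y = true}) ≤
      (kept r p R).length := by nlinarith
    exact_mod_cast h8
  · intro e he
    have he' := h2.subset (List.mem_toFinset.1 he)
    have h6 := hy e he'
    have h7 := sum_wt S (qs r p).toFinset (r e).2 fun q hq => List.mem_toFinset.2
      (List.mem_dedup.2 (List.mem_flatMap.2 ⟨e, he', List.mem_map_of_mem hq⟩))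
    rw [cR, feat, dot_cons _ _ hY]
    simp only [mul_assoc, ← mul_sum, h7]
    generalize (((r e).2.filter fun q => S q.2).map Prod.fst).sum = A at h6
    cases hb : tbit p m e y
    · have h8 : ¬(r e).1 ≤ A := fun h9 => by simp [h6.2 h9] at hb
      refine ⟨Or.inr (by simp [sgn]), ?_⟩
      exact_mod_cast (show 1 ≤ sgn false * ((1 - 2 * (r e).1) * 1 + 2 * A) by
        simp only [sgn, cond_false]; omega)
    · have h8 := h6.1 hb
      refine ⟨Or.inl (by simp [sgn]), ?_⟩
      exact_mod_cast (show 1 ≤ sgn true * ((1 - 2 * (r e).1) * 1 + 2 * A) by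
        simp only [sgn, cond_true]; omega)

theorem Small.card_ok (h : Small r p R S T) (hp : p.Prime) {m : ℕ}
    (hm : (8 * kap R ^ 2 + 1) * (m + 1) ≤ p) (F : Finset ℕ)
    (hF : ∀ y ∈ F, y < 2 ^ m ∧ ok r p m R y = true) : F.card ≤ 8 * kap R ^ 2 := by
  by_contra hc
  obtain ⟨F', h1, h2⟩ := exists_subset_card_eq (s := F) (n := 8 * kap R ^ 2 + 1) (by omega)
  obtain ⟨h3, -, h4⟩ := h.kept_spec
  have h5 := (idx_nodup p).sublist h3
  have hp0 : (0 : ℝ) < p := by exact_mod_cast hp.pos
  have h6 := h4.card_le (by positivity) (by push_cast; positivity)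
    (by unfold kap; positivity) (I0 := (idx p).toFinset)
    (fun e he => List.mem_toFinset.2 (h3.subset (List.mem_toFinset.1 he)))
    (by rw [List.toFinset_card_of_nodup h5, ← idx_length]; exact_mod_cast h3.length_le) F'
    (fun y e => (sgn (tbit p m e y) : ℝ)) ((m + 1) * p ^ 2) (by positivity)
    (fun y _ => by
      simp only [sgn_mul_self]
      rw [sum_const, List.toFinset_card_of_nodup (idx_nodup p), idx_length]; simp)
    (fun y hy y' hy' hne => near_orth hp (hF y (h1 hy)).1 (hF y' (h1 hy')).1 hne)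
    (by
      rw [h2]
      have : (8 * kap R ^ 2 + 1) * ((m + 1) * p ^ 2) ≤ p * (p * p) := by
        rw [← mul_assoc, pow_two p]; exact Nat.mul_le_mul_right (p * p) hm
      exact_mod_cast this)
    fun y hy => (pass_spec h5 _).1 (hF y (h1 hy)).2
  rw [h2] at h6
  have : 8 * kap R ^ 2 + 1 ≤ 8 * kap R ^ 2 := by exact_mod_cast h6
  omega

end Pool.Agent.Lib.MP_79d702_lc.Thr
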