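import Mathlib

/-!
Two inequalities for positive semidefinite bilinear forms: a correlation bound for sign vectors
of a linear functional, and a Bessel inequality for nearly orthogonal sign vectors.
-/

namespace Pool.Agent.Lib.MP_79d702_lc.Thr

open Finset

variable {V : Type*} [AddCommGroup V] [Module ℝ V] {B : V →ₗ[ℝ] V →ₗ[ℝ] ℝ}

/-- Symmetric positive semidefinite bilinear forms. -/
structure Psd (B : V →ₗ[ℝ] V →ₗ[ℝ] ℝ) : Prop where
  symm : ∀ x y, B x y = B y x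
  nonneg : ∀ x, 0 ≤ B x x

theorem Psd.two_mul_le (h : Psd B) (x y : V) : 2 * B x y ≤ B x x + B y y := by
  have h1 := h.nonneg (x - y)
  simp only [map_sub, LinearMap.sub_apply] at h1
  have h2 := h.symm x y
  linarith

theorem Psd.abs_le (h : Psd B) (x y : V) : 2 * |B x y| ≤ B x x + B y y := by
  have h1 := h.two_mul_le x y
  have h2 := h.two_mul_le x (-y)
  simp only [map_neg, LinearMap.neg_apply, neg_neg] at h2
  rcases abs_cases (B x y) with h3 | h3 <;> linarith [h3.1]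

theorem Psd.cs (h : Psd B) (x y : V) : (B x y) ^ 2 ≤ B x x * B y y := by
  have h1 : ∀ t : ℝ, 0 ≤ B x x * (t * t) + (2 * B x y) * t + B y y := by
    intro t
    have h1 := h.nonneg (t • x + y)
    simp only [map_add, map_smul, LinearMap.add_apply, LinearMap.smul_apply, smul_eq_mul] at h1
    have h2 := h.symm x y
    rw [← h2] at h1
    linarith
  have h2 := discrim_le_zero h1
  unfold discrim at h2
  nlinarith

theorem lower {I : Type*} (h : Psd B) (J : Finset I) (c : I → V) (χ : I → ℝ) (s : V) (β : ℝ)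
    (hχ : ∀ i ∈ J, χ i * B (c i) s = |B (c i) s|)
    (hQ : 0 < ∑ i ∈ J, (B (c i) s) ^ 2)
    (hs : B s s ≤ 2 * ∑ i ∈ J, (B (c i) s) ^ 2)
    (hβ : ∀ i ∈ J, B (c i) (c i) ≤ β) :
    1 ≤ 4 * β * B (∑ i ∈ J, χ i • c i) (∑ i ∈ J, χ i • c i) := by
  set Q := ∑ i ∈ J, (B (c i) s) ^ 2 with hQd
  set v := ∑ i ∈ J, χ i • c i with hv
  have hne : J.Nonempty := by
    by_contra h0
    rw [not_nonempty_iff_eq_empty.1 h0] at hQd
    simp at hQd
    exact hQ.ne' hQd
  obtain ⟨i0, hi0⟩ := hne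
  have hβ0 : 0 ≤ β := (h.nonneg _).trans (hβ i0 hi0)
  have h1 : B v s = ∑ i ∈ J, |B (c i) s| := by
    rw [hv, map_sum, LinearMap.sum_apply]
    refine sum_congr rfl fun i hi => ?_
    rw [map_smul, LinearMap.smul_apply, smul_eq_mul, hχ i hi]
  have h2 : ∀ i ∈ J, |B (c i) s| ≤ √(2 * β * Q) := by
    intro i hi
    refine Real.abs_le_sqrt ((h.cs _ _).trans ?_)
    calc B (c i) (c i) * B s s ≤ β * (2 * Q) :=
          mul_le_mul (hβ i hi) hs (h.nonneg _) hβ0
      _ = 2 * β * Q := by ring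
  have h3 : Q ≤ √(2 * β * Q) * B v s := by
    rw [h1, mul_sum]
    refine sum_le_sum fun i hi => ?_
    rw [← sq_abs, sq]
    exact mul_le_mul_of_nonneg_right (h2 i hi) (abs_nonneg _)
  have h4 : Q ^ 2 ≤ 2 * β * Q * (B v s) ^ 2 := by
    calc Q ^ 2 ≤ (√(2 * β * Q) * B v s) ^ 2 := pow_le_pow_left₀ hQ.le h3 2
      _ = 2 * β * Q * (B v s) ^ 2 := by rw [mul_pow, Real.sq_sqrt (by positivity)]
  have h5 : (B v s) ^ 2 ≤ B v v * (2 * Q) :=
    (h.cs _ _).trans (mul_le_mul_of_nonneg_left hs (h.nonneg _))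
  have h6 : Q ^ 2 * 1 ≤ Q ^ 2 * (4 * β * B v v) := by
    calc Q ^ 2 * 1 ≤ 2 * β * Q * (B v v * (2 * Q)) := by
          rw [mul_one]
          exact h4.trans (mul_le_mul_of_nonneg_left h5 (by positivity))
      _ = Q ^ 2 * (4 * β * B v v) := by ring
  exact le_of_mul_le_mul_left h6 (by positivity)

theorem bessel {I A : Type*} (h : Psd B) (J I0 : Finset I) (hJ : J ⊆ I0) (c : I → V)
    (S : Finset A) (χ : A → I → ℝ) (N E κ : ℝ) (hN : 0 < N) (hE0 : 0 ≤ E)
    (hd : ∀ a ∈ S, ∑ i ∈ I0, χ a i * χ a i ≤ N)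
    (ho : ∀ a ∈ S, ∀ a' ∈ S, a ≠ a' → |∑ i ∈ I0, χ a i * χ a' i| ≤ E)
    (hE : S.card * E ≤ N) (hc : ∑ i ∈ J, B (c i) (c i) ≤ κ) :
    ∑ a ∈ S, B (∑ i ∈ J, χ a i • c i) (∑ i ∈ J, χ a i • c i) ≤ 2 * N * κ := by
  classical
  set v : A → V := fun a => ∑ i ∈ J, χ a i • c i with hv
  set w : I → V := fun i => ∑ a ∈ S, χ a i • v a with hw
  set X := ∑ a ∈ S, B (v a) (v a) with hX
  have hX0 : 0 ≤ X := sum_nonneg fun a _ => h.nonneg _
  have h1 : X = ∑ i ∈ J, B (c i) (w i) := by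
    have : ∀ a, B (v a) (v a) = ∑ i ∈ J, χ a i * B (c i) (v a) := by
      intro a
      have e : ∀ z, B (v a) z = ∑ i ∈ J, χ a i * B (c i) z := fun z => by
        simp only [hv, map_sum, LinearMap.sum_apply, map_smul, LinearMap.smul_apply, smul_eq_mul]
      exact e _
    simp only [hX, this]
    rw [sum_comm]
    refine sum_congr rfl fun i _ => ?_
    simp only [hw, map_sum, map_smul, smul_eq_mul]
  have h2 : ∑ i ∈ I0, B (w i) (w i) =
      ∑ a ∈ S, ∑ a' ∈ S, (∑ i ∈ I0, χ a i * χ a' i) * B (v a) (v a') := by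
    simp only [hw, map_sum, LinearMap.sum_apply, map_smul, LinearMap.smul_apply, smul_eq_mul,
      sum_mul, mul_sum]
    rw [sum_comm]
    rw [sum_comm (s := S) (t := S)]
    refine sum_congr rfl fun a _ => ?_
    rw [sum_comm]
    refine sum_congr rfl fun a' _ => sum_congr rfl fun i _ => by ring
  have h3 : ∑ a ∈ S, ∑ a' ∈ S, (∑ i ∈ I0, χ a i * χ a' i) * B (v a) (v a') ≤
      ∑ a ∈ S, ∑ a' ∈ S, ((if a = a' then N * B (v a) (v a) else 0) +
        (E / 2 * B (v a) (v a) + E / 2 * B (v a') (v a'))) := by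
    refine sum_le_sum fun a ha => sum_le_sum fun a' ha' => ?_
    have n1 := h.nonneg (v a)
    have n2 := h.nonneg (v a')
    by_cases e : a = a'
    · subst e
      rw [if_pos rfl]
      have := mul_le_mul_of_nonneg_right (hd a ha) n1
      nlinarith
    · rw [if_neg e]
      have h4 := h.abs_le (v a) (v a')
      have h5 := mul_le_mul (ho a ha a' ha' e) (le_refl |B (v a) (v a')|) (abs_nonneg _) hE0
      rw [← abs_mul] at h5
      have h6 := le_abs_self ((∑ i ∈ I0, χ a i * χ a' i) * B (v a) (v a'))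
      nlinarith
  have h4 : ∑ a ∈ S, ∑ a' ∈ S, ((if a = a' then N * B (v a) (v a) else 0) +
        (E / 2 * B (v a) (v a) + E / 2 * B (v a') (v a'))) = N * X + S.card * E * X := by
    simp only [sum_add_distrib, sum_ite_eq, sum_const, nsmul_eq_mul, ← mul_sum]
    rw [sum_congr rfl fun a ha => if_pos ha, ← mul_sum]
    ring
  have h5 : ∑ i ∈ J, B (w i) (w i) ≤ 2 * N * X := by
    calc ∑ i ∈ J, B (w i) (w i) ≤ ∑ i ∈ I0, B (w i) (w i) :=
          sum_le_sum_of_subset_of_nonneg hJ fun i _ _ => h.nonneg _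
      _ ≤ N * X + S.card * E * X := by rw [h2, ← h4]; exact h3
      _ ≤ 2 * N * X := by nlinarith [mul_le_mul_of_nonneg_right hE hX0]
  have h6 : ∑ i ∈ J, 4 * N * B (c i) (w i) ≤
      ∑ i ∈ J, (4 * N ^ 2 * B (c i) (c i) + B (w i) (w i)) := by
    refine sum_le_sum fun i _ => ?_
    have := h.two_mul_le ((2 * N) • c i) (w i)
    simp only [map_smul, LinearMap.smul_apply, smul_eq_mul] at this
    nlinarith
  rw [← mul_sum, ← h1, sum_add_distrib, ← mul_sum] at h6
  have h7 := mul_le_mul_of_nonneg_left hc (show 0 ≤ 4 * N ^ 2 by positivity)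
  have h8 : N * X ≤ N * (2 * N * κ) := by nlinarith
  exact le_of_mul_le_mul_left h8 hN

end Pool.Agent.Lib.MP_79d702_lc.Thr
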