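import Pool.Agent.Lib.MP_79d702_lc.Thr.Feat
import Pool.Agent.Lib.MP_79d702_lc.SparseDtt

/-!
If `NP` is threshold reducible to sparse sets, the answer vectors of parallel `NP` queries can be
listed in polynomial time.
-/

namespace Pool.Agent.Lib.MP_79d702_lc.Thr

open Function N487b59b3 Pool.Agent.Shared.PolyTime N68a2faeb Pool.Agent.Lib.MP_8f56c4_lc
open Pool.Agent.Lib.MP_79d702_lc.SparseDtt (mem_NP' val_inj count_le_of_imp pt_pr)

attribute [local fun_prop] PB.comp

/-- For the right census, every polynomial-time property of the answer vector is an `NP`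
property. -/
theorem exists_test {β : Type} [N487b59b3 β] [Dec β] {L : List Bool → Bool} (hL : L ∈ NP)
    {g : List Bool → List (List Bool)} (hg : PT g) {F : List Bool × ℕ × β → List Bool → Bool}
    (hF : PT fun a : (List Bool × ℕ × β) × List Bool => F a.1 a.2) :
    ∃ A ∈ NP, ∀ (x : List Bool) (r : β),
      (A (bitEncode (x, ((g x).map L).count true, r)) = true ↔
        F (x, ((g x).map L).count true, r) ((g x).map L) = true) := by
  classical
  obtain ⟨q, R, hR, hL⟩ := hL
  replace hR := PT.ofIsPolyTime hR
  have hq : PT fun x : List Bool => q.eval x.length := pt_eval q (by fun_prop)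
  obtain ⟨A, hA, h⟩ := mem_NP' (α := List Bool × ℕ × β) (β := List (List Bool × Bool × List Bool))
    (M := fun a => (g a.1).length * (2 * (2 * sz (g a.1) + 4 + 3 * q.eval (sz (g a.1))) + 1))
    (B := fun a Z => decide (Z.map Prod.fst = g a.1) &&
      decide ((Z.map fun z => z.2.1).count true = a.2.1) &&
      (Z.all fun z => !z.2.1 || (decide (z.2.2.length ≤ q.eval z.1.length) && R (z.1, z.2.2))) &&
      F a (Z.map fun z => z.2.1))
    (by
      have : PB fun a : List Bool × ℕ × β => q.eval (sz (g a.1)) :=
        PBe.eval (PB.sz (by fun_prop)) q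
      fun_prop)
    (by
      refine PT.and (PT.and (by fun_prop) (PT.all (by fun_prop) (PT.or (by fun_prop)
        (PT.and (PT.decide_le (by fun_prop) (hq.comp' (by fun_prop))) (by fun_prop))))) ?_
      fun_prop)
    (by
      rintro a ⟨Z, hZ⟩
      simp only [Bool.and_eq_true, decide_eq_true_eq, List.all_eq_true] at hZ
      obtain ⟨⟨⟨h1, h2⟩, h3⟩, h4⟩ := hZ
      refine ⟨Z.map fun z => (z.1, z.2.1, cond z.2.1 z.2.2 []), ?_, ?_⟩
      · simp only [Bool.and_eq_true, decide_eq_true_eq, List.all_eq_true, List.map_map]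
        refine ⟨⟨⟨h1, h2⟩, fun z' hz' => ?_⟩, h4⟩
        obtain ⟨z, hz, rfl⟩ := List.mem_map.1 hz'
        have := h3 z hz
        cases hb : z.2.1 <;> simp_all
      · rw [← h1, List.length_map, ← List.length_map (as := Z)
          (fun z => (z.1, z.2.1, cond z.2.1 z.2.2 []))]
        refine sz_list_le fun z' hz' => ?_
        obtain ⟨z, hz, rfl⟩ := List.mem_map.1 hz'
        have h5 := h3 z hz
        have h6 := sz_mem (List.mem_map_of_mem (f := Prod.fst) hz)
        have h7 := eval_mono q ((length_le_sz z.1).trans (show sz z.1 ≤ sz (Z.map Prod.fst) by omega))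
        cases hb : z.2.1
        · simp; omega
        · simp [hb] at h5
          simp only [sz_pair, sz_bool, cond_true, sz_listBool z.2.2]
          omega)
  refine ⟨A, hA, fun x r => (h _).trans ?_⟩
  simp only [Bool.and_eq_true, decide_eq_true_eq, List.all_eq_true]
  constructor
  · rintro ⟨Z, ⟨⟨h1, h2⟩, h3⟩, h4⟩
    have h5 := (count_le_of_imp L (Z.map fun z => (z.1, z.2.1)) fun z' hz' hb => by
      obtain ⟨z, hz, rfl⟩ := List.mem_map.1 hz'
      have := h3 z hz
      simp only at hb
      simp only [hb, Bool.not_true, Bool.false_or, Bool.and_eq_true, decide_eq_true_eq] at this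
      exact (hL _).2 ⟨_, this⟩).2
    simp only [List.map_map] at h5
    have h6 : (g x).map L = Z.map fun z => L z.1 := by rw [← h1, List.map_map]; rfl
    rw [h6] at h2 ⊢
    have h7 : (Z.map fun z => z.2.1) = Z.map fun z => L z.1 := h5 h2
    rwa [h7, h6] at h4
  · intro h1
    refine ⟨(g x).map fun a => (a, L a, if h : L a = true then ((hL a).1 h).choose else []),
      ⟨⟨by simp [Function.comp_def], by simp [Function.comp_def]⟩, fun z hz => ?_⟩,
      by simpa [Function.comp_def] using h1⟩
    obtain ⟨a, -, rfl⟩ := List.mem_map.1 hz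
    by_cases ha : L a = true
    · simpa [ha] using ((hL a).1 ha).choose_spec
    · simp [ha]

/-- The reduced tests of a level. -/
def red (G : List Bool → Rd) (x : List Bool) (k p i : ℕ) (e : Ix) : Rd :=
  G (bitEncode (x, k, p, i, e))

/-- The extensions that pass the test of a level. -/
def ext (G : List Bool → Rd) (x : List Bool) (k p m R : ℕ) (cur : List (List Bool)) (i : ℕ) :
    List (List Bool) :=
  (cur.flatMap fun u => [u ++ [false], u ++ [true]]).dedup.filter fun u =>
    decide (u.length = i + 1) && ok (red G x k p i) p m R (val u)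

/-- The candidates for a given census. -/
def cands (G : List Bool → Rd) (x : List Bool) (k p m R : ℕ) : List (List Bool) :=
  (List.range m).foldl (fun cur i => (ext G x k p m R cur i).take (8 * kap R ^ 2)) [[]]

theorem pt_cands {α : Type} [N487b59b3 α] {G : List Bool → Rd} (hG : PT G)
    {x : α → List Bool} {k p m R : α → ℕ} (hx : PT x) (hk : PT k) (hp : PT p) (bp : PB p)
    (hm : PT m) (bm : PB m) (hR : PT R) (bR : PB R) :
    PT fun a => cands G (x a) (k a) (p a) (m a) (R a) := by
  have h1 : PT fun a => 8 * kap (R a) ^ 2 :=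
    (PT.const 8).mul ((pt_kap hR).pow (PT.const 2) (PB.const 2))
  have h2 : PB fun a => kap (R a) := by unfold kap; fun_prop
  refine PT.foldl_inv (f := fun a cur i => (ext G (x a) (k a) (p a) (m a) (R a) cur i).take
    (8 * kap (R a) ^ 2)) (PT.take (h1.comp' (by fun_prop)) (PT.filter (by fun_prop) (PT.and (by fun_prop) ?_)))
    (by fun_prop) (by fun_prop)
    (fun a cur => cur.length ≤ 8 * kap (R a) ^ 2 + 1 ∧ ∀ u ∈ cur, u.length ≤ m a)
    (fun a => by simp) (fun a cur i hi _ => ⟨by simp, fun u hu => ?_⟩)
    (B := fun a => (8 * kap (R a) ^ 2 + 1) * (2 * (3 * m a) + 1)) (by fun_prop) fun a cur h => ?_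
  · exact pt_ok (α := (α × List (List Bool) × ℕ) × List Bool)
      (r := fun q => red G (x q.1.1) (k q.1.1) (p q.1.1) q.1.2.2) (by unfold red; fun_prop)
      (by fun_prop) (by fun_prop) (by fun_prop) (by fun_prop) (by fun_prop) (by fun_prop)
  · have h1 := (List.mem_filter.1 (List.mem_of_mem_take hu)).2
    simp only [Bool.and_eq_true, decide_eq_true_eq] at h1
    have := List.mem_range.1 hi
    omega
  · refine (sz_list_le (B := 3 * m a) fun u hu => ?_).trans (Nat.mul_le_mul_right _ h.1)
    have := h.2 u hu
    rw [sz_listBool]; omega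

theorem mem_cands {G : List Bool → Rd} {S T : List Bool → Bool} {x b : List Bool}
    {k p R : ℕ} (hp : p.Prime) (hm : (8 * kap R ^ 2 + 1) * (b.length + 1) ≤ p)
    (hS : ∀ i < b.length, Small (red G x k p i) p R S T)
    (hG : ∀ i e, tbit p b.length e (val (b.take (i + 1))) = true ↔ (red G x k p i e).1 ≤
      (((red G x k p i e).2.filter fun q => S q.2).map Prod.fst).sum) :
    b ∈ cands G x k p b.length R := by
  have key : ∀ i ≤ b.length, b.take i ∈ (List.range i).foldl
      (fun cur i => (ext G x k p b.length R cur i).take (8 * kap R ^ 2)) [[]] := by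
    intro i
    induction i with
    | zero => simp
    | succ i ih =>
      intro hi
      rw [List.range_succ, List.foldl_append, List.foldl_cons, List.foldl_nil]
      have h0 := ih (by omega)
      generalize (List.range i).foldl _ [[]] = cur at h0
      have h1 := hS i (by omega)
      have h2 : (ext G x k p b.length R cur i).Nodup := (List.nodup_dedup _).filter _
      have h3 : ∀ u ∈ ext G x k p b.length R cur i, u.length = i + 1 ∧
          ok (red G x k p i) p b.length R (val u) = true := fun u hu => by
        simpa using (List.mem_filter.1 hu).2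
      have h4 := h1.card_ok hp hm ((ext G x k p b.length R cur i).toFinset.image val) fun y hy => by
        obtain ⟨u, hu, rfl⟩ := Finset.mem_image.1 hy
        obtain ⟨h5, h6⟩ := h3 u (List.mem_toFinset.1 hu)
        exact ⟨(val_lt u).trans_le (Nat.pow_le_pow_right two_pos (by omega)), h6⟩
      rw [Finset.card_image_of_injOn fun u hu u' hu' e => val_inj _ _
        ((h3 u (List.mem_toFinset.1 hu)).1.trans (h3 u' (List.mem_toFinset.1 hu')).1.symm) e,
        List.toFinset_card_of_nodup h2] at h4
      rw [List.take_of_length_le h4]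
      refine List.mem_filter.2 ⟨List.mem_dedup.2 (List.mem_flatMap.2 ⟨_, h0, ?_⟩), ?_⟩
      · rw [List.take_succ_eq_append_getElem (by omega)]
        cases b[i] <;> simp
      · simp only [Bool.and_eq_true, decide_eq_true_eq]
        exact ⟨by simp; omega, h1.ok_true fun e _ => hG i e⟩
  simpa [cands] using key _ le_rfl

theorem card_le_of_sparse {S : List Bool → Bool} {n B : ℕ} {Y : Finset (List Bool)}
    (h : {w : List Bool | w.length ≤ n ∧ S w = true}.ncard ≤ B) (hY : ∀ y ∈ Y, y.length ≤ n) :
    (Y.filter fun y => S y = true).card ≤ B := by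
  refine le_trans ?_ h
  rw [← Set.ncard_coe_finset]
  refine Set.ncard_le_ncard (fun y hy => ?_) ((List.finite_length_le Bool n).subset fun w hw => hw.1)
  obtain ⟨h1, h2⟩ := Finset.mem_filter.1 hy
  exact ⟨hY y h1, h2⟩

theorem NP_subset_P_of_thr (H : ∀ L ∈ NP, ∃ S T : List Bool → Bool,
    (∃ q : Polynomial ℕ, ∀ n, {w : List Bool | w.length ≤ n ∧ S w = true}.ncard ≤ q.eval n) ∧
    (∃ q : Polynomial ℕ, ∀ n, {w : List Bool | w.length ≤ n ∧ T w = true}.ncard ≤ q.eval n) ∧
    ∃ (G : List Bool → Rd) (q : Polynomial ℕ), IsPolyTime G ∧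
      (∀ x, ∀ e ∈ (G x).2, T e.2 = true ∨ e.1.natAbs ≤ q.eval x.length) ∧
      ∀ x, (L x = true ↔ (G x).1 ≤ (((G x).2.filter fun e => S e.2).map Prod.fst).sum)) :
    NP ⊆ P := by
  refine NP_subset_P fun L hL g hg => ?_
  obtain ⟨A, hA, hAs⟩ := exists_test (β := ℕ × ℕ × Ix) hL hg
    (F := fun a b => tbit a.2.2.1 b.length a.2.2.2.2 (val (b.take (a.2.2.2.1 + 1)))) (by fun_prop)
  obtain ⟨S, T, ⟨qS, hqS⟩, ⟨qT, hqT⟩, G, qw, hG, hGw, hGs⟩ := H A hA
  replace hG := PT.ofIsPolyTime hG
  obtain ⟨qg, hqg⟩ := PB.length hg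
  obtain ⟨qG, hqG⟩ := PB.sz hG
  let l : Polynomial ℕ := 13 * Polynomial.X + 4 * qg.comp (3 * Polynomial.X) + 6
  let R : Polynomial ℕ := Polynomial.X + qG.comp (3 * l) + qS.comp (qG.comp (3 * l)) +
    qT.comp (qG.comp (3 * l)) + qw.comp l
  let r : Polynomial ℕ := (8 * (128 * (R + 1) ^ 6) ^ 2 + 1) * (qg.comp (3 * Polynomial.X) + 1)
  obtain ⟨C, hC⟩ := poly_lt_two_pow (2 * r)
  have h0 : ∀ s : Polynomial ℕ, (PT fun x : List Bool => s.eval (x.length + C)) ∧
      PB fun x : List Bool => s.eval (x.length + C) := fun s =>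
    ⟨pt_eval s (by fun_prop), PBe.eval (PB.add (PB.length PT.id') (PB.const C)) s⟩
  have h3 : PT fun x : List Bool => pr (r.eval (x.length + C)) := pt_pr (h0 r).1 (h0 r).2
  have h4 : PB fun x : List Bool => pr (r.eval (x.length + C)) :=
    PB.mono (g := fun x => 2 * r.eval (x.length + C)) ((PB.const 2).mul (h0 r).2) fun _ => pr_le _
  refine ⟨fun x => (List.range ((g x).length + 1)).flatMap fun k =>
    cands G x k (pr (r.eval (x.length + C))) (g x).length (R.eval (x.length + C)),
    PT.flatMap (by fun_prop) (pt_cands hG (by fun_prop) (by fun_prop) (h3.comp' (by fun_prop))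
      (h4.comp (by fun_prop)) (by fun_prop) (by fun_prop) ((h0 R).1.comp' (by fun_prop))
      ((h0 R).2.comp (by fun_prop))), fun x => ?_⟩
  have hk : ((g x).map L).count true ≤ (g x).length := by
    simpa using List.count_le_length (a := true) (l := (g x).map L)
  refine List.mem_flatMap.2 ⟨((g x).map L).count true, List.mem_range.2 (by omega), ?_⟩
  set N := x.length + C with hN
  have hl : l.eval N = 13 * N + 4 * qg.eval (3 * N) + 6 := by simp [l, Polynomial.eval_comp]
  have hR : R.eval N = N + qG.eval (3 * l.eval N) + qS.eval (qG.eval (3 * l.eval N)) +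
      qT.eval (qG.eval (3 * l.eval N)) + qw.eval (l.eval N) := by simp [R, Polynomial.eval_comp]
  have hr : r.eval N = (8 * kap (R.eval N) ^ 2 + 1) * (qg.eval (3 * N) + 1) := by
    simp [r, kap, Polynomial.eval_comp]
  obtain ⟨hp, hD⟩ := pr_spec (D := r.eval N) (by rw [hr]; exact Nat.mul_ne_zero (by omega) (by omega))
  have hle := pr_le (r.eval N)
  have h5 := hC N (by omega)
  simp only [Polynomial.eval_mul, Polynomial.eval_ofNat] at h5
  generalize pr (r.eval N) = p at hp hD hle
  have hm : (g x).length ≤ qg.eval (3 * N) := by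
    refine (hqg x).trans (eval_mono qg ?_)
    change sz x ≤ _
    rw [sz_listBool]; omega
  have := mem_cands (G := G) (S := S) (T := T) (x := x) (b := (g x).map L) (R := R.eval N)
    (k := ((g x).map L).count true) hp ?_ (fun i hi => ?_) fun i e => ?_
  · simpa using this
  · rw [List.length_map]
    exact (Nat.mul_le_mul_left _ (by omega)).trans (hr.symm.trans_le hD.le)
  · rw [List.length_map] at hi
    have h6 : ∀ e ∈ idx p, sz (x, ((g x).map L).count true, p, i, e) ≤ l.eval N := by
      rintro ⟨u, a, c⟩ he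
      have he' := List.mem_toFinset.2 he
      simp only [idx_toFinset, Finset.mem_product, Finset.mem_range] at he'
      have h8 : sz p ≤ N := by rw [sz_nat, Nat.size_le]; omega
      have h9 := sz_nat_mono he'.1.le
      have h10 := sz_nat_mono he'.2.1.le
      have h11 := sz_nat_mono he'.2.2.le
      have h12 := sz_nat_le i
      have h13 := sz_nat_le (((g x).map L).count true)
      simp only [sz_pair, sz_listBool]
      omega
    have h7 : ∀ e ∈ idx p, sz (red G x (((g x).map L).count true) p i e) ≤
        qG.eval (3 * l.eval N) := fun e he => by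
      refine (hqG _).trans (eval_mono qG ?_)
      change sz (bitEncode _) ≤ _
      rw [sz_listBool]
      exact Nat.mul_le_mul_left 3 (h6 e he)
    have h8 : ∀ y ∈ (qs (red G x (((g x).map L).count true) p i) p).toFinset,
        y.length ≤ qG.eval (3 * l.eval N) := fun y hy => by
      obtain ⟨e, he, h8⟩ := List.mem_flatMap.1 (List.mem_dedup.1 (List.mem_toFinset.1 hy))
      obtain ⟨q, hq, rfl⟩ := List.mem_map.1 h8
      have h9 := h7 e he
      have h10 := sz_mem hq
      have h11 := length_le_sz q.2
      rw [sz_prod] at h9 h10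
      omega
    refine ⟨(card_le_of_sparse (hqS _) h8).trans (by omega),
      (card_le_of_sparse (hqT _) h8).trans (by omega), fun e he => (h7 e he).trans (by omega),
      fun e he q hq => (hGw _ q hq).imp_right fun h => h.trans ((eval_mono qw (h6 e he)).trans
        (by omega)), ?_, ?_⟩
    · exact le_trans (by omega) (Nat.pow_le_pow_right two_pos (show N ≤ R.eval N by omega))
    · have h9 := Nat.le_self_pow two_ne_zero (kap (R.eval N))
      have h10 := Nat.le_mul_of_pos_right (8 * kap (R.eval N) ^ 2 + 1)
        (show 0 < qg.eval (3 * N) + 1 by omega)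
      omega
  · unfold red
    rw [← hGs, hAs]

end Pool.Agent.Lib.MP_79d702_lc.Thr
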