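import Pool.Agent.Lib.MP_79d702_lc.Thr.Form

/-!
Ridge matrices `δ I + ∑ c cᵀ`, their determinants and leverage scores.
-/

namespace Pool.Agent.Lib.MP_79d702_lc.Thr

open Finset Matrix

variable {ι : Type*} [Fintype ι] [DecidableEq ι]

/-- Symmetric matrices bounded below by `δ`. -/
structure Good (δ : ℝ) (P : Matrix ι ι ℝ) : Prop where
  symm : Pᵀ = P
  ge : ∀ x, δ * (x ⬝ᵥ x) ≤ x ⬝ᵥ P *ᵥ x
  det_pos : 0 < P.det

/-- The bilinear form of the inverse matrix. -/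
noncomputable def fm (P : Matrix ι ι ℝ) : (ι → ℝ) →ₗ[ℝ] (ι → ℝ) →ₗ[ℝ] ℝ :=
  Matrix.toLinearMap₂' ℝ P⁻¹

theorem fm_apply (P : Matrix ι ι ℝ) (x y : ι → ℝ) : fm P x y = x ⬝ᵥ P⁻¹ *ᵥ y :=
  Matrix.toLinearMap₂'_apply' _ _ _

omit [DecidableEq ι] in
theorem dot_self_nonneg (x : ι → ℝ) : 0 ≤ x ⬝ᵥ x := sum_nonneg fun _ _ => mul_self_nonneg _

omit [DecidableEq ι] in
theorem quad_vv (c x y : ι → ℝ) : x ⬝ᵥ vecMulVec c c *ᵥ y = (c ⬝ᵥ x) * (c ⬝ᵥ y) := by
  rw [vecMulVec_mulVec, dotProduct_smul, dotProduct_comm x c]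
  simp

variable {δ : ℝ} {P : Matrix ι ι ℝ}

theorem Good.unit (h : Good δ P) : IsUnit P.det := h.det_pos.ne'.isUnit

theorem Good.fm_mulVec (h : Good δ P) (x y : ι → ℝ) : fm P x (P *ᵥ y) = x ⬝ᵥ y := by
  rw [fm_apply, mulVec_mulVec, nonsing_inv_mul _ h.unit, one_mulVec]

theorem Good.mul_inv (h : Good δ P) (x : ι → ℝ) : P *ᵥ (P⁻¹ *ᵥ x) = x := by
  rw [mulVec_mulVec, mul_nonsing_inv _ h.unit, one_mulVec]

theorem Good.psd (hδ : 0 < δ) (h : Good δ P) : Psd (fm P) where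
  symm x y := by
    rw [fm_apply, fm_apply, dotProduct_mulVec, dotProduct_comm, ← mulVec_transpose,
      transpose_nonsing_inv, h.symm]
  nonneg x := by
    have h1 := h.ge (P⁻¹ *ᵥ x)
    rw [h.mul_inv, dotProduct_comm _ x] at h1
    rw [fm_apply]
    exact (mul_nonneg hδ.le (dot_self_nonneg _)).trans h1

theorem Good.var (hδ : 0 < δ) (h : Good δ P) (x y : ι → ℝ) :
    2 * (x ⬝ᵥ y) - y ⬝ᵥ P *ᵥ y ≤ fm P x x := by
  have h1 := (h.psd hδ).two_mul_le x (P *ᵥ y)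
  rw [h.fm_mulVec, h.fm_mulVec, dotProduct_comm (P *ᵥ y)] at h1
  linarith

theorem Good.var_eq (h : Good δ P) (x : ι → ℝ) :
    fm P x x = 2 * (x ⬝ᵥ P⁻¹ *ᵥ x) - (P⁻¹ *ᵥ x) ⬝ᵥ P *ᵥ (P⁻¹ *ᵥ x) := by
  rw [h.mul_inv, dotProduct_comm _ x, fm_apply]; ring

theorem Good.fm_le (hδ : 0 < δ) (h : Good δ P) (x : ι → ℝ) : fm P x x ≤ x ⬝ᵥ x / δ := by
  rw [h.var_eq, le_div_iff₀ hδ]
  generalize P⁻¹ *ᵥ x = y
  have h1 := h.ge y
  have h2 := dot_self_nonneg (x - δ • y)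
  simp only [sub_dotProduct, dotProduct_sub, smul_dotProduct, dotProduct_smul, smul_eq_mul,
    dotProduct_comm y x] at h2
  nlinarith

theorem Good.det_add (h : Good δ P) (c : ι → ℝ) :
    (P + vecMulVec c c).det = P.det * (1 + fm P c c) := by
  rw [vecMulVec_eq Unit, det_add_replicateCol_mul_replicateRow h.unit, det_unique (n := Unit),
    fm_apply]
  congr 1
  simp [Matrix.mul_apply, dotProduct, mulVec, sum_mul, mul_sum, mul_assoc]
  exact sum_comm

theorem Good.add (hδ : 0 < δ) (h : Good δ P) (c : ι → ℝ) : Good δ (P + vecMulVec c c) where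
  symm := by rw [transpose_add, h.symm, transpose_vecMulVec]
  ge x := by
    rw [add_mulVec, dotProduct_add, quad_vv]
    nlinarith [h.ge x, mul_self_nonneg (c ⬝ᵥ x)]
  det_pos := by
    rw [h.det_add]
    have := (h.psd hδ).nonneg c
    have := h.det_pos
    positivity

theorem Good.mono (hδ : 0 < δ) (h : Good δ P) (c x : ι → ℝ) :
    fm (P + vecMulVec c c) x x ≤ fm P x x := by
  rw [(h.add hδ c).var_eq]
  generalize (P + vecMulVec c c)⁻¹ *ᵥ x = y
  have h1 := h.var hδ x y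
  rw [add_mulVec, dotProduct_add, quad_vv]
  nlinarith [mul_self_nonneg (c ⬝ᵥ y)]

/-- The ridge matrix of a finite family of vectors. -/
def ridge {R : Type*} [CommRing R] {I : Type*} (δ : R) (J : Finset I) (c : I → ι → R) :
    Matrix ι ι R := δ • 1 + ∑ i ∈ J, vecMulVec (c i) (c i)

variable {I : Type*} [DecidableEq I]

omit [Fintype ι] in
theorem ridge_insert {R : Type*} [CommRing R] (δ : R) {J : Finset I} {k : I} (hk : k ∉ J)
    (c : I → ι → R) : ridge δ (insert k J) c = ridge δ J c + vecMulVec (c k) (c k) := by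
  unfold ridge; rw [sum_insert hk]; abel

theorem ridge_good (hδ : 0 < δ) (J : Finset I) (c : I → ι → ℝ) :
    Good δ (ridge δ J c) ∧ δ ^ Fintype.card ι ≤ (ridge δ J c).det ∧
      (ridge δ J c).det ≤ δ ^ Fintype.card ι * ∏ i ∈ J, (1 + c i ⬝ᵥ c i / δ) := by
  induction J using Finset.induction_on with
  | empty =>
    have : (ridge δ (∅ : Finset I) c) = δ • 1 := by simp [ridge]
    rw [this]
    refine ⟨⟨by simp, fun x => ?_, by simp; positivity⟩, by simp, by simp⟩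
    rw [smul_mulVec, one_mulVec, dotProduct_smul, smul_eq_mul]
  | insert k J hk ih =>
    obtain ⟨h1, h2, h3⟩ := ih
    rw [ridge_insert δ hk, h1.det_add, prod_insert hk]
    have h4 := (h1.psd hδ).nonneg (c k)
    have h5 := h1.fm_le hδ (c k)
    have h6 := h1.det_pos
    refine ⟨h1.add hδ _, by nlinarith, ?_⟩
    calc _ ≤ (δ ^ Fintype.card ι * ∏ i ∈ J, (1 + c i ⬝ᵥ c i / δ)) * (1 + c k ⬝ᵥ c k / δ) :=
          mul_le_mul h3 (by linarith) (by linarith) (h6.le.trans h3)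
      _ = _ := by ring

omit [DecidableEq I] in
theorem ridge_quad (J : Finset I) (c : I → ι → ℝ) (x : ι → ℝ) :
    x ⬝ᵥ ridge δ J c *ᵥ x = δ * (x ⬝ᵥ x) + ∑ i ∈ J, (c i ⬝ᵥ x) ^ 2 := by
  unfold ridge
  rw [add_mulVec, dotProduct_add, smul_mulVec, one_mulVec, dotProduct_smul, smul_eq_mul,
    sum_mulVec, dotProduct_sum]
  simp only [quad_vv, sq]

/-- The column form of the determinant bound. -/
theorem ridge_det_le (hδ : 0 < δ) (J : Finset I) (c : I → ι → ℝ) :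
    (ridge δ J c).det ≤ δ ^ Fintype.card ι * ∏ y, (1 + (∑ i ∈ J, c i y ^ 2) / δ) := by
  let C : Matrix J ι ℝ := fun i y => c i y
  have h1 : ridge δ J c = δ • (1 + (δ⁻¹ • Cᵀ) * C) := by
    ext y y'
    simp only [ridge, Matrix.add_apply, Matrix.smul_apply, Matrix.sum_apply, vecMulVec_apply,
      Matrix.mul_apply, transpose_apply, smul_eq_mul, C, mul_add, mul_sum]
    congr 1
    rw [← sum_coe_sort J]
    refine sum_congr rfl fun i _ => ?_
    field_simp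
  have h2 : ridge δ univ (fun (y : ι) (i : J) => c i y) = δ • (1 + C * (δ⁻¹ • Cᵀ)) := by
    ext i i'
    simp only [ridge, Matrix.add_apply, Matrix.smul_apply, Matrix.sum_apply, vecMulVec_apply,
      Matrix.mul_apply, transpose_apply, smul_eq_mul, C, mul_add, mul_sum]
    congr 1
    refine sum_congr rfl fun i _ => ?_
    field_simp
  have h3 := (ridge_good hδ univ (fun (y : ι) (i : J) => c i y)).2.2
  rw [h2, det_smul] at h3
  rw [h1, det_smul, det_one_add_mul_comm]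
  refine mul_le_mul_of_nonneg_left ((le_of_mul_le_mul_left h3 (by positivity)).trans_eq ?_)
    (by positivity)
  refine prod_congr rfl fun y _ => ?_
  rw [← sum_coe_sort J]
  simp only [dotProduct, sq]

/-- No vector of the family has a large leverage score. -/
def Stable (δ N κ : ℝ) (J : Finset I) (c : I → ι → ℝ) : Prop :=
  ∀ k ∈ J, N * (ridge δ J c).det ≤ (N + κ) * (ridge δ (J.erase k) c).det

/-- The signed sum of the family is long. -/
def Pass (δ N κ : ℝ) (J : Finset I) (c : I → ι → ℝ) (χ : I → ℝ) : Prop :=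
  (N + 4 * κ) * (ridge δ J c).det ≤
    4 * κ * (ridge δ J c + vecMulVec (∑ i ∈ J, χ i • c i) (∑ i ∈ J, χ i • c i)).det

variable {N κ : ℝ} {J : Finset I} {c : I → ι → ℝ}

theorem Stable.lev (hδ : 0 < δ) (hN : 0 < N) (h : Stable δ N κ J c) {k : I} (hk : k ∈ J) :
    fm (ridge δ J c) (c k) (c k) ≤ κ / N := by
  have h1 := h k hk
  have h2 := (ridge_good hδ (J.erase k) c).1
  have h3 : ridge δ J c = ridge δ (J.erase k) c + vecMulVec (c k) (c k) := by
    rw [← ridge_insert δ (notMem_erase k J), insert_erase hk]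
  rw [h3, h2.det_add] at h1
  rw [h3]
  refine (h2.mono hδ _ _).trans ?_
  rw [le_div_iff₀ hN]
  have h4 := h2.det_pos
  nlinarith

theorem pass_iff (hδ : 0 < δ) (χ : I → ℝ) : Pass δ N κ J c χ ↔
    N ≤ 4 * κ * fm (ridge δ J c) (∑ i ∈ J, χ i • c i) (∑ i ∈ J, χ i • c i) := by
  have h := (ridge_good hδ J c).1
  have h4 := h.det_pos
  unfold Pass
  rw [h.det_add]
  constructor <;> intro h1 <;> nlinarith

theorem Stable.pass (hδ : 0 < δ) (hN : 0 < N) (h : Stable δ N κ J c) (hJ : J.Nonempty)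
    (t : ι → ℝ) (ht : δ * (t ⬝ᵥ t) ≤ J.card) (χ : I → ℝ)
    (hχ : ∀ i ∈ J, (χ i = 1 ∨ χ i = -1) ∧ 1 ≤ χ i * (c i ⬝ᵥ t)) : Pass δ N κ J c χ := by
  have hg := (ridge_good hδ J c).1
  have h1 : (J.card : ℝ) ≤ ∑ i ∈ J, (c i ⬝ᵥ t) ^ 2 := by
    rw [card_eq_sum_ones]
    push_cast
    refine sum_le_sum fun i hi => ?_
    obtain ⟨h1 | h1, h2⟩ := hχ i hi <;> rw [h1] at h2 <;> nlinarith
  have h2 : (0 : ℝ) < J.card := by exact_mod_cast hJ.card_pos
  have h3 := lower (hg.psd hδ) J c χ (ridge δ J c *ᵥ t) (κ / N)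
    (fun i hi => by
      rw [hg.fm_mulVec]
      obtain ⟨h1 | h1, h2⟩ := hχ i hi <;> rw [h1] at h2 ⊢
      · rw [abs_of_nonneg (by linarith), one_mul]
      · rw [abs_of_nonpos (by linarith), neg_one_mul])
    (by simp only [hg.fm_mulVec]; linarith)
    (by simp only [hg.fm_mulVec]; rw [dotProduct_comm, ridge_quad]; linarith)
    fun i hi => h.lev hδ hN hi
  rw [pass_iff hδ]
  have h4 := mul_le_mul_of_nonneg_left h3 hN.le
  calc N = N * 1 := (mul_one _).symm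
    _ ≤ _ := h4
    _ = _ := by field_simp

theorem Stable.card_le {A : Type*} (hδ : 0 < δ) (hN : 0 < N) (hκ : 0 < κ) (h : Stable δ N κ J c)
    {I0 : Finset I} (hJ : J ⊆ I0) (hc : (J.card : ℝ) ≤ N) (S : Finset A) (χ : A → I → ℝ) (E : ℝ)
    (hE0 : 0 ≤ E) (hd : ∀ a ∈ S, ∑ i ∈ I0, χ a i * χ a i ≤ N)
    (ho : ∀ a ∈ S, ∀ a' ∈ S, a ≠ a' → |∑ i ∈ I0, χ a i * χ a' i| ≤ E)
    (hE : S.card * E ≤ N) (hp : ∀ a ∈ S, Pass δ N κ J c (χ a)) : (S.card : ℝ) ≤ 8 * κ ^ 2 := by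
  have hg := (ridge_good hδ J c).1
  have h1 := bessel (hg.psd hδ) J I0 hJ c S χ N E κ hN hE0 hd ho hE (by
    refine (sum_le_card_nsmul _ _ (κ / N) fun i hi => h.lev hδ hN hi).trans ?_
    rw [nsmul_eq_mul, mul_div_assoc', div_le_iff₀ hN, mul_comm κ]
    exact mul_le_mul_of_nonneg_right hc hκ.le)
  have h2 := card_nsmul_le_sum S _ N fun a ha => (pass_iff hδ _).1 (hp a ha)
  rw [← mul_sum, nsmul_eq_mul] at h2
  have h3 := mul_le_mul_of_nonneg_left h1 (show 0 ≤ 4 * κ by positivity)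
  have h4 : N * S.card ≤ N * (8 * κ ^ 2) := by nlinarith
  exact le_of_mul_le_mul_left h4 hN

end Pool.Agent.Lib.MP_79d702_lc.Thr
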